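import Pool.Agent.K4H33.CP.Split

/-!
# Relations between eigenvalues define couplings of the slope distributions
-/

set_option autoImplicit false

open CategoryTheory AlgebraicGeometry Polynomial

universe u v

namespace Pool.Agent.K4H33.CP

open Pool.Agent.H914 Pool.Agent.W534 Pool.Agent.H914.VarClass Pool.Agent.H914.VarClass.Obj
  Pool.Agent.H914.WeilCohomology Pool.Agent.R940
open Pool.Agent.K4H33.TS hiding IsProductOnce SlopesIndependent NoZeroSum IsEvenDenominator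

variable {k : Type u} [Field k] {𝒱 : VarClass k} {ops : CycleOps 𝒱}
  {W : WeilCohomology.{u, v} ops} {X Y Z U : 𝒱.Obj} {p : ℕ}
  {Φ : FrobSystem W p} {σ : W.K →+* ℂ}

/-- The slope of a number. -/
noncomputable def sl (p : ℕ) [Fact p.Prime] (e : ℕ) (y : PadicAlgCl p) : ℝ :=
  -Real.logb ((p : ℝ) ^ e) ‖y‖

lemma sl_iff [hp : Fact p.Prime] {e : ℕ} (he : 0 < e) {y : PadicAlgCl p} (hy : y ≠ 0) (x : ℝ) :
    sl p e y = x ↔ ‖y‖ = ((p : ℝ) ^ e) ^ (-x) := by
  have hq : (1 : ℝ) < (p : ℝ) ^ e := one_lt_pow₀ (by exact_mod_cast hp.out.one_lt) he.ne'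
  have h1 : ‖y‖ = ((p : ℝ) ^ e) ^ (-sl p e y) := by
    rw [sl, neg_neg, Real.rpow_logb (zero_lt_one.trans hq) hq.ne' (norm_pos_iff.2 hy)]
  constructor
  · rintro rfl
    exact h1
  · intro h2
    rw [h1] at h2
    have h3 := (Real.rpow_right_inj (zero_lt_one.trans hq) hq.ne').1 h2
    linarith

lemma norm_eq_sl [hp : Fact p.Prime] {e : ℕ} (he : 0 < e) {y : PadicAlgCl p} (hy : y ≠ 0) :
    ‖y‖ = ((p : ℝ) ^ e) ^ (-sl p e y) := (sl_iff he hy _).1 rfl

lemma _root_.Pool.Agent.K4H33.TS.EigIn.isFactor (hint : HasIntegralPolys Φ σ X) {i : ℕ}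
    {ν : W.K} (h : EigIn Φ X 1 i ν) : IsFactor Φ σ X i (minpoly ℚ ν) := by
  have hν : IsIntegral ℚ ν := (h.isIntegral hint).tower_top
  obtain ⟨P, -, h2, h3⟩ := h.poly hint
  refine ⟨minpoly.irreducible hν, minpoly.monic hν, ?_⟩
  have h4 : minpoly ℚ ν ∣ P.map (Int.castRingHom ℚ) := by
    apply minpoly.dvd
    rw [aeval_def, eval₂_map]
    rw [aeval_def] at h3
    rw [← h3]
    congr 1
    exact RingHom.ext_int _ _
  have h5 := Polynomial.map_dvd (algebraMap ℚ ℂ) h4
  rw [Polynomial.map_map] at h5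
  rw [h2]
  have h6 : (algebraMap ℚ ℂ).comp (Int.castRingHom ℚ) = Int.castRingHom ℂ := RingHom.ext_int _ _
  rwa [h6] at h5

section Rel

variable {κ : Type} [Fintype κ] {V : κ → 𝒱.Obj} {d : κ → ℕ} {lam : κ → W.K} {b : κ → ℕ} {E : ℕ}
  {c : ℤ}

/-- The weights in a relation. -/
lemma weights_of_relation [Fact p.Prime] (hRH : ∀ l, RiemannHyp Φ σ (V l))
    (hlam : ∀ l, EigIn Φ (V l) 1 (d l) (lam l)) (hE : 0 < E)
    (hb : ∀ l, b l * Φ.e (V l) = E ∨ (lam l = 1 ∧ d l = 0))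
    (hrel : ∏ l, lam l ^ b l = (p : W.K) ^ ((E : ℤ) * c)) :
    ((∑ l, d l : ℕ) : ℤ) = 2 * c := by
  have hp1 : (1 : ℝ) < p := by exact_mod_cast (Fact.out : p.Prime).one_lt
  have hp0 : (0 : ℝ) < p := zero_lt_one.trans hp1
  have h1 : ∀ l, (‖σ (lam l)‖ ^ b l) ^ 2 = (p : ℝ) ^ (E * d l) := by
    intro l
    rcases hb l with h | ⟨h, h'⟩
    · have h2 := (hlam l).weight (hRH _) one_pos
      rw [W534.card, mul_one] at h2
      rw [← pow_mul, mul_comm (b l) 2, pow_mul, h2, ← h]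
      push_cast
      rw [← pow_mul, ← pow_mul]
      congr 1
      ring
    · rw [h, h', map_one, norm_one, one_pow, one_pow, mul_zero, pow_zero]
  have h3 := congrArg (fun x => ‖σ x‖ ^ 2) hrel
  simp only [map_prod, map_pow, map_zpow₀, map_natCast, norm_prod, norm_pow, norm_zpow,
    Complex.norm_natCast] at h3
  rw [← Finset.prod_pow, Finset.prod_congr rfl fun l _ => h1 l, Finset.prod_pow_eq_pow_sum,
    ← Finset.mul_sum, ← zpow_natCast, ← zpow_natCast, ← zpow_mul] at h3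
  have h5 := zpow_right_injective₀ hp0 hp1.ne' h3
  have hE' : (E : ℤ) ≠ 0 := by exact_mod_cast hE.ne'
  apply mul_left_cancel₀ hE'
  push_cast at h5 ⊢
  linear_combination h5

/-- The slopes of the images in a relation. -/
lemma slopes_of_relation [Fact p.Prime] {A : Type} [Fintype A]
    (hE : 0 < E) {e : A → ℕ} (he : ∀ l, 0 < e l) {b : A → ℕ} {z : A → PadicAlgCl p}
    (hz : ∀ l, z l ≠ 0) (hb : ∀ l, b l * e l = E ∨ z l = 1)
    (hrel : ∏ l, z l ^ b l = (p : PadicAlgCl p) ^ ((E : ℤ) * c)) :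
    ∑ l, sl p (e l) (z l) = c := by
  have hp1 : (1 : ℝ) < p := by exact_mod_cast (Fact.out : p.Prime).one_lt
  have hp0 : (0 : ℝ) < p := zero_lt_one.trans hp1
  have h1 : ∀ l, ‖z l‖ ^ b l = (p : ℝ) ^ (-((E : ℝ) * sl p (e l) (z l))) := by
    intro l
    rcases hb l with h | h
    · conv_lhs => rw [norm_eq_sl (he l) (hz l)]
      rw [pow_rpow_pow hp0, ← h]
      push_cast
      ring_nf
    · rw [h, norm_one, one_pow, sl, norm_one, Real.logb_one, neg_zero, mul_zero, neg_zero,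
        Real.rpow_zero]
  have h2 := congrArg norm hrel
  rw [norm_prod, Finset.prod_congr rfl fun l _ => norm_pow (z l) (b l),
    Finset.prod_congr rfl fun l _ => h1 l, norm_zpow, TS.norm_natCast_p, inv_zpow',
    ← Real.rpow_intCast, ← Real.rpow_sum_of_pos hp0] at h2
  have h3 := (Real.rpow_right_inj hp0 hp1.ne').1 h2
  have hE' : (E : ℝ) ≠ 0 := by exact_mod_cast hE.ne'
  apply mul_left_cancel₀ hE'
  rw [Finset.sum_neg_distrib, ← Finset.mul_sum] at h3
  push_cast at h3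
  linear_combination -h3

/-- **A relation defines a coupling.** -/
theorem coupling_of_relation [Fact p.Prime] (hRH : ∀ l, RiemannHyp Φ σ (V l))
    (hint : ∀ l, HasIntegralPolys Φ σ (V l)) (hlam : ∀ l, EigIn Φ (V l) 1 (d l) (lam l))
    (hE : 0 < E) (hb : ∀ l, b l * Φ.e (V l) = E ∨ (lam l = 1 ∧ d l = 0))
    (hrel : ∏ l, lam l ^ b l = (p : W.K) ^ ((E : ℤ) * c)) {S : Set κ}
    (hX : SlopesIndependent Φ σ V S) :
    ∀ l ∈ S, Even (d l) ∧ ∀ y : PadicAlgCl p, aeval y (minpoly ℚ (lam l)) = 0 →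
      ‖y‖ = ((p : ℝ) ^ Φ.e (V l)) ^ (-((d l : ℝ) / 2)) := by
  classical
  have hw := weights_of_relation hRH hlam hE hb hrel
  have hq : ∀ l, IsIntegral ℚ (lam l) := fun l => ((hlam l).isIntegral (hint _)).tower_top
  have hS : ∀ x ∈ Set.range lam, IsIntegral ℚ x := by
    rintro x ⟨l, rfl⟩
    exact hq l
  have hfin : Finite (Set.range lam) := Set.finite_range lam
  have hfd : FiniteDimensional ℚ (IntermediateField.adjoin ℚ (Set.range lam)) :=
    IntermediateField.finiteDimensional_adjoin hS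
  have hmem : ∀ l, lam l ∈ IntermediateField.adjoin ℚ (Set.range lam) := fun l =>
    IntermediateField.subset_adjoin ℚ _ ⟨l, rfl⟩
  obtain ⟨N, eG⟩ : ∃ N : ℕ, Nonempty (Fin N ≃
      (IntermediateField.adjoin ℚ (Set.range lam) →ₐ[ℚ] PadicAlgCl p)) :=
    ⟨_, ⟨(Fintype.equivFin _).symm⟩⟩
  obtain ⟨eG⟩ := eG
  have hcard : Fintype.card (IntermediateField.adjoin ℚ (Set.range lam) →ₐ[ℚ] PadicAlgCl p) =
      N := by rw [← Fintype.card_congr eG, Fintype.card_fin]
  have hne : ∀ (φ : IntermediateField.adjoin ℚ (Set.range lam) →ₐ[ℚ] PadicAlgCl p) (l : κ),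
      φ ⟨lam l, hmem l⟩ ≠ 0 := by
    intro φ l h0
    exact (hlam l).ne_zero (hRH _) (congrArg Subtype.val ((map_eq_zero φ).1 h0))
  have hcoup : IsCoupling p (fun l => Φ.e (V l)) d (fun l => minpoly ℚ (lam l)) N
      (fun l g => sl p (Φ.e (V l)) (eG g ⟨lam l, hmem l⟩)) := by
    refine ⟨?_, ?_, ?_⟩
    · rw [← hcard, Fintype.card_pos_iff]
      by_cases hκ : Nonempty κ
      · obtain ⟨l⟩ := hκ
        obtain ⟨y, hy⟩ := IsAlgClosed.exists_aeval_eq_zero (PadicAlgCl p) (minpoly ℚ (lam l))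
          (minpoly.degree_pos (hq l)).ne'
        obtain ⟨φ, -⟩ := exists_emb hS (hmem l) hy
        exact ⟨φ⟩
      · have : IsEmpty κ := not_nonempty_iff.1 hκ
        obtain ⟨φ, -⟩ := exists_emb (x := (1 : W.K)) (y := (1 : PadicAlgCl p)) hS (one_mem _)
          (by rw [minpoly.one, map_sub, Polynomial.aeval_X, map_one, sub_self])
        exact ⟨φ⟩
    · intro l x
      have h1 : {g | sl p (Φ.e (V l)) (eG g ⟨lam l, hmem l⟩) = x}.ncard =
          {φ : IntermediateField.adjoin ℚ (Set.range lam) →ₐ[ℚ] PadicAlgCl p |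
            ‖φ ⟨lam l, hmem l⟩‖ = ((p : ℝ) ^ Φ.e (V l)) ^ (-x)}.ncard := by
        refine Set.ncard_congr (fun g _ => eG g) ?_ ?_ ?_
        · intro g hg
          exact (sl_iff (Φ.e_pos _) (hne _ l) x).1 hg
        · intro g g' _ _ h
          exact eG.injective h
        · intro φ hφ
          refine ⟨eG.symm φ, ?_, eG.apply_symm_apply φ⟩
          change sl p (Φ.e (V l)) (eG (eG.symm φ) ⟨lam l, hmem l⟩) = x
          rw [eG.apply_symm_apply]
          exact (sl_iff (Φ.e_pos _) (hne _ l) x).2 hφ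
      have h2 := card_emb (F := ℚ) (A := PadicAlgCl p)
        (⟨lam l, hmem l⟩ : IntermediateField.adjoin ℚ (Set.range lam))
        (fun y => ‖y‖ = ((p : ℝ) ^ Φ.e (V l)) ^ (-x))
      have h3 : minpoly ℚ (⟨lam l, hmem l⟩ : IntermediateField.adjoin ℚ (Set.range lam)) =
          minpoly ℚ (lam l) :=
        (minpoly.algebraMap_eq (algebraMap (IntermediateField.adjoin ℚ (Set.range lam))
          W.K).injective ⟨lam l, hmem l⟩).symm
      rw [h3, hcard] at h2
      rw [h1]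
      exact h2
    · intro g
      have h1 : ∏ l, (eG g ⟨lam l, hmem l⟩) ^ b l = (p : PadicAlgCl p) ^ ((E : ℤ) * c) := by
        rw [Finset.prod_congr rfl fun l _ => (map_pow (eG g) ⟨lam l, hmem l⟩ (b l)).symm,
          ← map_prod, ← map_natCast (eG g) p, ← map_zpow₀]
        congr 1
        apply Subtype.ext
        push_cast
        exact_mod_cast hrel
      have h2 := slopes_of_relation (e := fun l => Φ.e (V l)) hE (fun l => Φ.e_pos _)
        (fun l => hne (eG g) l) (fun l => by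
          rcases hb l with h | ⟨h, -⟩
          · exact Or.inl h
          · right
            have : (⟨lam l, hmem l⟩ : IntermediateField.adjoin ℚ (Set.range lam)) = 1 :=
              Subtype.ext h
            rw [this, map_one]) h1
      rw [h2]
      have h3 : ((∑ l, d l : ℕ) : ℝ) = 2 * c := by exact_mod_cast hw
      push_cast at h3
      rw [h3]
      ring
  have hfac : ∀ l, IsFactor Φ σ (V l) (d l) (minpoly ℚ (lam l)) := fun l =>
    (hlam l).isFactor (hint _)
  have key := hX d _ hfac (by refine ⟨c.toNat, ?_⟩; omega) N _ hcoup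
  intro l hl
  refine ⟨(key l hl).1, fun y hy => ?_⟩
  obtain ⟨φ, hφ⟩ := exists_emb hS (hmem l) hy
  have h1 := (key l hl).2 (eG.symm φ)
  simp only [eG.apply_symm_apply] at h1
  rw [sl_iff (Φ.e_pos _) (hne _ l), hφ] at h1
  exact h1

end Rel

end Pool.Agent.K4H33.CP
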