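import Pool.Agent.R940.UDefs
import Pool.Agent.TH132.A.Defs

/-!
# Couplings of slope distributions: definitions
-/

set_option autoImplicit false

open CategoryTheory AlgebraicGeometry Polynomial

universe u v

namespace Pool.Agent.K4H33.CP

open Pool.Agent.H914 Pool.Agent.W534 VarClass Obj WeilCohomology

variable {k : Type u} [Field k] {𝒱 : VarClass k} {ops : CycleOps 𝒱}

/-- The variety `Z` is a product of the varieties `X l`, `l ∈ S`, in any order and with any
brackets; each of them occurs once. -/
inductive IsProductOnce {κ : Type} [DecidableEq κ] (X : κ → 𝒱.Obj) : Finset κ → 𝒱.Obj → Prop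
  | base (l : κ) : IsProductOnce X {l} (X l)
  | prod {S T : Finset κ} {Y Z : 𝒱.Obj} : Disjoint S T → IsProductOnce X S Y →
      IsProductOnce X T Z → IsProductOnce X (S ∪ T) (Y.prod Z)

/-- The variety `X` is *pure*: its Frobenius eigenvalues in degree `i` are Weil numbers of weight
`i`. More precisely, the characteristic polynomials of the Frobenius endomorphism of `X` have
integral coefficients, and their roots in degree `i` have absolute value `q ^ (i / 2)`, over the
field with `q` elements. -/
structure IsPure {W : WeilCohomology.{u, v} ops} {p : ℕ} (Φ : FrobSystem W p) (σ : W.K →+* ℂ)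
    (X : 𝒱.Obj) : Prop where
  weight : RiemannHyp Φ σ X
  integral : Pool.Agent.R940.HasIntegralPolys Φ σ X

/-- The polynomial `f` is a monic irreducible factor over the rational numbers of the
characteristic polynomial of the Frobenius endomorphism of `X`, over the field with
`p ^ (Φ.e X)` elements, on `H^i(X)`. -/
def IsFactor {W : WeilCohomology.{u, v} ops} {p : ℕ} (Φ : FrobSystem W p) (σ : W.K →+* ℂ)
    (X : 𝒱.Obj) (i : ℕ) (f : ℚ[X]) : Prop :=
  Irreducible f ∧ f.Monic ∧ f.map (algebraMap ℚ ℂ) ∣ frobPoly Φ σ X 1 i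

/-- The number of the `p`-adic roots of `f` of slope `x`, that is of absolute value `q ^ (-x)`,
where `q = p ^ e`. -/
noncomputable def slopeCount (p : ℕ) [Fact p.Prime] (e : ℕ) (f : ℚ[X]) (x : ℝ) : ℕ :=
  {y : PadicAlgCl p | aeval y f = 0 ∧ ‖y‖ = ((p : ℝ) ^ e) ^ (-x)}.ncard

/-- A coupling of the slope distributions of the polynomials `f l`: real random variables `s l` on
a finite set with `N` elements (with the same probability for each element), such that

* the distribution of `s l` is the distribution of the slopes of the roots of `f l`: the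
  probability of `s l = x` is the number of the roots of slope `x`, divided by the degree;
* the sum of the `s l` is constant, equal to the half of the sum of the degrees `d l`. -/
structure IsCoupling (p : ℕ) [Fact p.Prime] {κ : Type} [Fintype κ] (e d : κ → ℕ)
    (f : κ → ℚ[X]) (N : ℕ) (s : κ → Fin N → ℝ) : Prop where
  pos : 0 < N
  marginal : ∀ (l : κ) (x : ℝ),
    {g | s l g = x}.ncard * (f l).natDegree = slopeCount p (e l) (f l) x * N
  sum : ∀ g, ∑ l, s l g = (∑ l, (d l : ℝ)) / 2

/-- The slopes of the varieties `X l` are independent at the indices in `S`: all couplings of the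
slope distributions of irreducible factors of the characteristic polynomials of Frobenius in
degrees `d l` with even sum are constant at the indices `l` in `S`, with `d l` even and
`s l = d l / 2`. -/
def SlopesIndependent {W : WeilCohomology.{u, v} ops} {p : ℕ} [Fact p.Prime]
    (Φ : FrobSystem W p) (σ : W.K →+* ℂ) {κ : Type} [Fintype κ] (X : κ → 𝒱.Obj) (S : Set κ) :
    Prop :=
  ∀ (d : κ → ℕ) (f : κ → ℚ[X]), (∀ l, IsFactor Φ σ (X l) (d l) (f l)) → Even (∑ l, d l) →
    ∀ (N : ℕ) (s : κ → Fin N → ℝ), IsCoupling p (fun l => Φ.e (X l)) d f N s →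
      ∀ l ∈ S, Even (d l) ∧ ∀ g, s l g = (d l : ℝ) / 2

/-- The varieties `X l` and, with the index `none`, the variety `U`. -/
def withU {κ : Type} (X : κ → 𝒱.Obj) (U : 𝒱.Obj) (l : Option κ) : 𝒱.Obj := l.elim U X

/-- The variety `X` is *of K3 type with height `h` and transcendental rank `t`*: it has no
cohomology in odd degrees, the Tate conjecture and the semisimplicity of Frobenius on the Tate
classes hold in all codimensions, and for each irreducible factor `f` of the characteristic
polynomial of Frobenius in degree `2 j` either all roots of `f` have slope `j`, or the slopes are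
`j - 1 / h`, `j` and `j + 1 / h`, and the first and the last one occur with frequency `h / t`. For
example `X` is a K3 surface of finite height `h` and Picard number `22 - t`, or a supersingular
K3 surface, with `t = 0` and any `h`. -/
structure IsK3Type {W : WeilCohomology.{u, v} ops} {p : ℕ} [Fact p.Prime] (Φ : FrobSystem W p)
    (σ : W.K →+* ℂ) (X : 𝒱.Obj) (h t : ℕ) : Prop where
  pos : 0 < h
  odd : ∀ i, Odd i → W.gr X i = ⊥
  tate : ∀ c, SemisimpleTateIn Φ X c
  slopes : ∀ (j : ℕ) (f : ℚ[X]), IsFactor Φ σ X (2 * j) f →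
    (∀ y : PadicAlgCl p, aeval y f = 0 → ‖y‖ = ((p : ℝ) ^ Φ.e X) ^ (-(j : ℝ))) ∨
    ((∀ y : PadicAlgCl p, aeval y f = 0 → ∃ ε : ℤ, |ε| ≤ 1 ∧
        ‖y‖ = ((p : ℝ) ^ Φ.e X) ^ (-((j : ℝ) + (ε : ℝ) / h))) ∧
      ∀ ε : ℤ, |ε| = 1 →
        slopeCount p (Φ.e X) f ((j : ℝ) + (ε : ℝ) / h) * t = h * f.natDegree)

/-- The variety `X` has no cohomology in odd degrees, and its slopes in degree `2 j` are of the form
`j + k / h` with integers `k` of absolute value at most `n`. For example `X` is a product of at most
`n` K3 surfaces of height `h`. -/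
structure SlopesNear {W : WeilCohomology.{u, v} ops} {p : ℕ} [Fact p.Prime] (Φ : FrobSystem W p)
    (σ : W.K →+* ℂ) (X : 𝒱.Obj) (h n : ℕ) : Prop where
  odd : ∀ i, Odd i → W.gr X i = ⊥
  slopes : ∀ (j : ℕ) (f : ℚ[X]), IsFactor Φ σ X (2 * j) f → ∀ y : PadicAlgCl p,
    aeval y f = 0 → ∃ m : ℤ, |m| ≤ n ∧ ‖y‖ = ((p : ℝ) ^ Φ.e X) ^ (-((j : ℝ) + (m : ℝ) / h))

/-- The positive number `D` is a common denominator of the slopes of `U` in even degrees: the
characteristic polynomials of Frobenius on `H^(2 j)(U)` have only `p`-adic roots with slopes `x`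
such that `D x` is an integer. -/
def IsEvenDenominator {W : WeilCohomology.{u, v} ops} {p : ℕ} [Fact p.Prime]
    (Φ : FrobSystem W p) (σ : W.K →+* ℂ) (U : 𝒱.Obj) (D : ℕ) : Prop :=
  0 < D ∧ ∀ (j : ℕ) (f : ℚ[X]), IsFactor Φ σ U (2 * j) f → ∀ y : PadicAlgCl p,
    aeval y f = 0 → ∃ m : ℤ, ‖y‖ ^ D = ((p : ℝ) ^ Φ.e U) ^ (-m)

/-- There are no functions `ε l` with the values `-1`, `0`, `1` on a finite nonempty set, not all
zero, such that `ε l` is zero or takes each of the values `1` and `-1` with frequency `h l / t l`,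
and `D` times the sum of the `ε l / h l` is everywhere an integer. -/
def NoIntegralSum {κ : Type} [Fintype κ] (D : ℕ) (h t : κ → ℕ) : Prop :=
  ∀ (N : ℕ) (ε : κ → Fin N → ℤ), 0 < N → (∀ l g, |ε l g| ≤ 1) →
    (∀ l, (∀ g, ε l g = 0) ∨ ∀ a : ℤ, |a| = 1 → {g | ε l g = a}.ncard * t l = h l * N) →
    (∀ g, ∃ m : ℤ, (D : ℚ) * ∑ l, (ε l g : ℚ) / h l = m) → ∀ l g, ε l g = 0

/-- There are no functions `ε l` with the values `-1`, `0`, `1` on a finite nonempty set, not all
zero, such that `ε l` is zero or takes each of the values `1` and `-1` with frequency `h l / t l`,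
and the sum of the `ε l / h l` is everywhere zero. -/
def NoZeroSum {κ : Type} [Fintype κ] (h t : κ → ℕ) : Prop :=
  ∀ (N : ℕ) (ε : κ → Fin N → ℤ), 0 < N → (∀ l g, |ε l g| ≤ 1) →
    (∀ l, (∀ g, ε l g = 0) ∨ ∀ a : ℤ, |a| = 1 → {g | ε l g = a}.ncard * t l = h l * N) →
    (∀ g, ∑ l, (ε l g : ℚ) / h l = 0) → ∀ l g, ε l g = 0

/-- The strong Tate conjecture for `Z`: in each codimension the generalised eigenspaces of Frobenius
of Tate type are spanned by classes of cycles, and the order of the pole of the zeta function at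
`j` is the rank of the cycles of codimension `j` modulo numerical equivalence, for all `j`. -/
def StrongTate {W : WeilCohomology.{u, v} ops} {p : ℕ} (Φ : FrobSystem W p) (σ : W.K →+* ℂ)
    (Z : 𝒱.Obj) : Prop :=
  (∀ c, SemisimpleTateIn Φ Z c) ∧ ∀ j ≤ Z.dim, PoleFormula Φ σ Z j

/-- The Tate conjecture for `Z × U` is equivalent to the Tate conjecture for `U`: in codimension `c`
to the Tate conjecture for `U` in the codimensions `c - i` such that there is a cycle of
codimension `i ≤ c` on `Z` which is not homologically equivalent to zero; and the same for the Tate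
conjecture together with semisimplicity. -/
def TateReduces {W : WeilCohomology.{u, v} ops} {p : ℕ} (Φ : FrobSystem W p) (Z U : 𝒱.Obj) :
    Prop :=
  ∀ c : ℕ, (TateIn Φ (Z.prod U) c ↔
      ∀ i ≤ c, (∃ x, Z.IsCyc i x ∧ W.cl Z x ≠ 0) → TateIn Φ U (c - i)) ∧
    (SemisimpleTateIn Φ (Z.prod U) c ↔
      ∀ i ≤ c, (∃ x, Z.IsCyc i x ∧ W.cl Z x ≠ 0) → SemisimpleTateIn Φ U (c - i))

/-- The indices `l` with `t l ≠ 0` have different numbers `h l`, between `m` and eleven. -/
def DifferentHeights {κ : Type} (m : ℕ) (h t : κ → ℕ) : Prop :=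
  (∀ l, t l ≠ 0 → m ≤ h l ∧ h l ≤ 11) ∧
    ∀ l l', t l ≠ 0 → t l' ≠ 0 → h l = h l' → l = l'

end Pool.Agent.K4H33.CP
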