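import Pool.Agent.K4H33.CP.Couple

/-!
# Products of families of varieties with independent slopes
-/

set_option autoImplicit false

open CategoryTheory AlgebraicGeometry Polynomial

universe u v

namespace Pool.Agent.K4H33.CP

open Pool.Agent.H914 Pool.Agent.W534 Pool.Agent.H914.VarClass Pool.Agent.H914.VarClass.Obj
  Pool.Agent.H914.WeilCohomology Pool.Agent.R940 Pool.Agent.TH132.A
open Pool.Agent.K4H33.TS hiding IsProductOnce SlopesIndependent NoZeroSum IsEvenDenominator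

variable {k : Type u} [Field k] {𝒱 : VarClass k} {ops : CycleOps 𝒱}
  {W : WeilCohomology.{u, v} ops} {Y Z U : 𝒱.Obj} {p : ℕ}
  {Φ : FrobSystem W p} {σ : W.K →+* ℂ}

/-- The slopes of an eigenvalue which, up to powers, is a product of numbers with known slopes. -/
lemma slopes_of_product [Fact p.Prime] {κ : Type} {V : κ → 𝒱.Obj} {S : Finset κ}
    {lam : W.K} (hlam : IsIntegral ℚ lam) {d : κ → ℕ} {mu : κ → W.K}
    (hmu : ∀ l ∈ S, IsIntegral ℚ (mu l)) {a : ℕ} (ha : 0 < a) {b : κ → ℕ}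
    (hb : ∀ l ∈ S, b l * Φ.e (V l) = a * Φ.e Y) (hrel : lam ^ a = ∏ l ∈ S, mu l ^ b l)
    (hsl : ∀ l ∈ S, ∀ y : PadicAlgCl p, aeval y (minpoly ℚ (mu l)) = 0 →
      ‖y‖ = ((p : ℝ) ^ Φ.e (V l)) ^ (-((d l : ℝ) / 2)))
    {y : PadicAlgCl p} (hy : aeval y (minpoly ℚ lam) = 0) :
    ‖y‖ = ((p : ℝ) ^ Φ.e Y) ^ (-(((∑ l ∈ S, d l : ℕ) : ℝ) / 2)) := by
  have hp1 : (1 : ℝ) < p := by exact_mod_cast (Fact.out : p.Prime).one_lt
  have hp0 : (0 : ℝ) < p := zero_lt_one.trans hp1
  have hS : ∀ x ∈ insert lam (mu '' (S : Set κ)), IsIntegral ℚ x := by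
    rintro x (rfl | ⟨l, hl, rfl⟩)
    · exact hlam
    · exact hmu l hl
  have hL : lam ∈ IntermediateField.adjoin ℚ (insert lam (mu '' (S : Set κ))) :=
    IntermediateField.subset_adjoin ℚ _ (Set.mem_insert _ _)
  have hM : ∀ l ∈ S, mu l ∈ IntermediateField.adjoin ℚ (insert lam (mu '' (S : Set κ))) :=
    fun l hl => IntermediateField.subset_adjoin ℚ _ (Set.mem_insert_of_mem _ ⟨l, hl, rfl⟩)
  obtain ⟨φ, hφ⟩ := exists_emb hS hL hy
  have h1 : (⟨lam, hL⟩ : IntermediateField.adjoin ℚ (insert lam (mu '' (S : Set κ)))) ^ a =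
      ∏ l : S, (⟨mu l, hM l l.2⟩ :
        IntermediateField.adjoin ℚ (insert lam (mu '' (S : Set κ)))) ^ b l := by
    apply Subtype.ext
    push_cast
    rw [hrel, Finset.prod_coe_sort S (fun l => mu l ^ b l)]
  have h2 := congrArg (fun x => ‖φ x‖) h1
  simp only [map_pow, map_prod, norm_pow, norm_prod, hφ] at h2
  have h3 : ∀ l : S, ‖φ ⟨mu l, hM l l.2⟩‖ ^ b l =
      (p : ℝ) ^ (-((a : ℝ) * Φ.e Y * ((d l : ℝ) / 2))) := by
    intro l
    rw [hsl l l.2 _ (minpoly_root_of_hom φ ⟨mu l, hM l l.2⟩), pow_rpow_pow hp0]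
    have h4 : ((b l * Φ.e (V l) : ℕ) : ℝ) = ((a * Φ.e Y : ℕ) : ℝ) := by rw [hb l l.2]
    push_cast at h4
    rw [h4]
  rw [Finset.prod_congr rfl fun l _ => h3 l, ← Real.rpow_sum_of_pos hp0] at h2
  have h4 : ∑ l : S, -((a : ℝ) * Φ.e Y * ((d l : ℝ) / 2)) =
      -((a : ℝ) * Φ.e Y * (((∑ l ∈ S, d l : ℕ) : ℝ) / 2)) := by
    rw [Finset.sum_coe_sort S (fun l => -((a : ℝ) * Φ.e Y * ((d l : ℝ) / 2))),
      Finset.sum_neg_distrib, ← Finset.mul_sum, ← Finset.sum_div]
    push_cast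
    rfl
  rw [h4, ← pow_rpow_pow hp0] at h2
  exact (pow_left_inj₀ (norm_nonneg _) (by positivity) ha.ne').1 h2

/-- **Disjoint products of varieties with independent slopes have only trivial relations.** -/
theorem relTrivial_of_independent {κ : Type} [Fintype κ] [DecidableEq κ] [IsAlgClosed W.K]
    [Fact p.Prime] {V : κ → 𝒱.Obj} (hRH : ∀ l, RiemannHyp Φ σ (V l))
    (hint : ∀ l, HasIntegralPolys Φ σ (V l)) {S T : Finset κ} {S' : Set κ} (hSS : ∀ l ∈ S, l ∈ S')
    (hX : SlopesIndependent Φ σ V S') (hST : Disjoint S T)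
    (h0 : ∀ l, l ∉ S → l ∉ T → (1 : W.H (V l)) ≠ 0)
    (hY : IsProductOnce V S Y) (hZ : IsProductOnce V T Z) : RelTrivial Φ Y Z := by
  intro i j lam mu a b' c hlam hmu ha hb' hab hrel
  obtain ⟨d₁, m₁, a₁, b₁, ha₁, h1, h2, h3⟩ := eig_product hY i lam hlam
  obtain ⟨d₂, m₂, a₂, b₂, ha₂, h4, h5, h6⟩ := eig_product hZ j mu hmu
  have hT : ∀ l ∈ T, l ∉ S := fun l hl hl' => Finset.disjoint_left.1 hST hl' hl
  let d : κ → ℕ := fun l => if l ∈ S then d₁ l else if l ∈ T then d₂ l else 0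
  let m : κ → W.K := fun l => if l ∈ S then m₁ l else if l ∈ T then m₂ l else 1
  let b : κ → ℕ := fun l => if l ∈ S then b₁ l * (a * a₂) else
    if l ∈ T then b₂ l * (b' * a₁) else 0
  have hm : ∀ l, EigIn Φ (V l) 1 (d l) (m l) := by
    intro l
    simp only [d, m]
    by_cases hl : l ∈ S
    · rw [if_pos hl, if_pos hl]
      exact (h1 l hl).1
    · rw [if_neg hl, if_neg hl]
      by_cases hl' : l ∈ T
      · rw [if_pos hl', if_pos hl']
        exact (h4 l hl').1
      · rw [if_neg hl', if_neg hl']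
        exact ⟨1, W.one_mem _, h0 l hl hl', by rw [frob_apply, map_one, one_smul]⟩
  have hb : ∀ l, b l * Φ.e (V l) = a₁ * a₂ * (a * Φ.e Y) ∨ (m l = 1 ∧ d l = 0) := by
    intro l
    simp only [d, m, b]
    by_cases hl : l ∈ S
    · left
      rw [if_pos hl]
      calc b₁ l * (a * a₂) * Φ.e (V l) = (b₁ l * Φ.e (V l)) * (a * a₂) := by ring
        _ = a₁ * Φ.e Y * (a * a₂) := by rw [(h1 l hl).2]
        _ = _ := by ring
    · by_cases hl' : l ∈ T
      · left
        rw [if_neg hl, if_pos hl']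
        calc b₂ l * (b' * a₁) * Φ.e (V l) = (b₂ l * Φ.e (V l)) * (b' * a₁) := by ring
          _ = a₂ * Φ.e Z * (b' * a₁) := by rw [(h4 l hl').2]
          _ = a₁ * a₂ * (b' * Φ.e Z) := by ring
          _ = _ := by rw [← hab]
      · right
        rw [if_neg hl, if_neg hl', if_neg hl, if_neg hl']
        exact ⟨rfl, rfl⟩
  have hprod : ∏ l, m l ^ b l =
      (p : W.K) ^ (((a₁ * a₂ * (a * Φ.e Y) : ℕ) : ℤ) * c) := by
    have e1 : ∀ l, m l ^ b l = (if l ∈ S then (m₁ l ^ b₁ l) ^ (a * a₂) else 1) *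
        (if l ∈ T then (m₂ l ^ b₂ l) ^ (b' * a₁) else 1) := by
      intro l
      simp only [m, b]
      by_cases hl : l ∈ S
      · rw [if_pos hl, if_pos hl, if_pos hl, if_neg (fun h => hT l h hl), mul_one, pow_mul]
      · by_cases hl' : l ∈ T
        · rw [if_neg hl, if_neg hl, if_neg hl, if_pos hl', if_pos hl', if_pos hl', one_mul,
            pow_mul]
        · rw [if_neg hl, if_neg hl, if_neg hl, if_neg hl', if_neg hl', if_neg hl', one_mul,
            pow_zero]
    rw [Finset.prod_congr rfl fun l _ => e1 l, Finset.prod_mul_distrib, Finset.prod_ite_mem,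
      Finset.prod_ite_mem, Finset.univ_inter, Finset.univ_inter, Finset.prod_pow,
      Finset.prod_pow, ← h3, ← h6, ← pow_mul, ← pow_mul]
    calc lam ^ (a₁ * (a * a₂)) * mu ^ (a₂ * (b' * a₁))
        = (lam ^ a * mu ^ b') ^ (a₁ * a₂) := by
          rw [mul_pow, ← pow_mul, ← pow_mul]
          congr 2 <;> ring
      _ = _ := by
          rw [hrel, ← zpow_natCast, ← zpow_mul]
          congr 1
          push_cast
          ring
  have key := coupling_of_relation hRH hint hm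
    (Nat.mul_pos (Nat.mul_pos ha₁ ha₂) (Nat.mul_pos ha (Φ.e_pos Y))) hb hprod hX
  have keyS : ∀ l ∈ S, Even (d₁ l) ∧ ∀ y : PadicAlgCl p, aeval y (minpoly ℚ (m₁ l)) = 0 →
      ‖y‖ = ((p : ℝ) ^ Φ.e (V l)) ^ (-((d₁ l : ℝ) / 2)) := by
    intro l hl
    have := key l (hSS l hl)
    simp only [d, m, if_pos hl] at this
    exact this
  refine ⟨?_, ?_⟩
  · rw [← h2]
    exact Finset.even_sum _ fun l hl => (keyS l hl).1
  · have htor : ∀ l ∈ S, ∃ n : ℕ, 0 < n ∧
        m₁ l ^ (2 * n) = (p : W.K) ^ (Φ.e (V l) * d₁ l * n) := fun l hl =>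
      (h1 l hl).1.torsion (hRH l) (hint l) (keyS l hl).2
    choose! n hn0 hn using htor
    have hN : 0 < ∏ l ∈ S, n l := Finset.prod_pos hn0
    refine ⟨a₁ * ∏ l ∈ S, n l, Nat.mul_pos ha₁ hN, ?_⟩
    have e1 : ∀ l ∈ S, (m₁ l ^ b₁ l) ^ (2 * ∏ l ∈ S, n l) =
        (p : W.K) ^ (a₁ * Φ.e Y * (∏ l ∈ S, n l) * d₁ l) := by
      intro l hl
      obtain ⟨r, hr⟩ : n l ∣ ∏ l ∈ S, n l := Finset.dvd_prod_of_mem n hl
      rw [hr, ← pow_mul]
      calc m₁ l ^ (b₁ l * (2 * (n l * r))) = (m₁ l ^ (2 * n l)) ^ (b₁ l * r) := by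
            rw [← pow_mul]
            congr 1
            ring
        _ = (p : W.K) ^ ((b₁ l * Φ.e (V l)) * (n l * r) * d₁ l) := by
            rw [hn l hl, ← pow_mul]
            congr 1
            ring
        _ = _ := by rw [(h1 l hl).2]
    calc lam ^ (2 * (a₁ * ∏ l ∈ S, n l)) = (lam ^ a₁) ^ (2 * ∏ l ∈ S, n l) := by
          rw [← pow_mul]
          congr 1
          ring
      _ = ∏ l ∈ S, (p : W.K) ^ (a₁ * Φ.e Y * (∏ l ∈ S, n l) * d₁ l) := by
          rw [h3, ← Finset.prod_pow]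
          exact Finset.prod_congr rfl e1
      _ = (p : W.K) ^ (Φ.e Y * i * (a₁ * ∏ l ∈ S, n l)) := by
          rw [Finset.prod_pow_eq_pow_sum, ← Finset.mul_sum, h2]
          congr 1
          ring

/-- The eigenvalues of a product have the right absolute values. -/
theorem riemannHyp_product {κ : Type} [DecidableEq κ] [IsAlgClosed W.K] (hp : 1 < p)
    {X : κ → 𝒱.Obj} (hRH : ∀ l, RiemannHyp Φ σ (X l)) {S : Finset κ}
    (hZ : IsProductOnce X S Z) : RiemannHyp Φ σ Z := by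
  intro s hs i μ hμ
  have hp1 : (1 : ℝ) < p := by exact_mod_cast hp
  have hp0 : (0 : ℝ) < p := zero_lt_one.trans hp1
  rw [frobPoly_eq] at hμ
  have hne : (frobOn Φ Z s i).charpoly ≠ 0 := (LinearMap.charpoly_monic _).ne_zero
  have hsp := IsAlgClosed.splits (frobOn Φ Z s i).charpoly
  obtain ⟨ν, hν, rfl⟩ : ∃ ν, (frobOn Φ Z s i).charpoly.IsRoot ν ∧ σ ν = μ := by
    have h1 : μ ∈ ((frobOn Φ Z s i).charpoly.map σ).roots :=
      (Polynomial.mem_roots (Polynomial.map_ne_zero hne)).2 hμ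
    rw [hsp.roots_map, Multiset.mem_map] at h1
    obtain ⟨ν, h2, h3⟩ := h1
    exact ⟨ν, (Polynomial.mem_roots hne).1 h2, h3⟩
  obtain ⟨lam, hlam, rfl⟩ := (eigIn_iff.2 hν).exists_root
  obtain ⟨d, m, a, b, ha, h1, h2, h3⟩ := eig_product hZ i lam hlam
  have h4 : (‖σ lam‖ ^ 2) ^ a = ((p : ℝ) ^ (Φ.e Z * i)) ^ a := by
    have h5 : ∀ l ∈ S, (‖σ (m l)‖ ^ b l) ^ 2 = (p : ℝ) ^ (a * Φ.e Z * d l) := by
      intro l hl
      have h6 := (h1 l hl).1.weight (hRH l) one_pos
      rw [W534.card, mul_one] at h6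
      rw [← pow_mul, mul_comm (b l) 2, pow_mul, h6, ← (h1 l hl).2]
      push_cast
      rw [← pow_mul, ← pow_mul]
      congr 1
      ring
    calc (‖σ lam‖ ^ 2) ^ a = (‖σ (lam ^ a)‖) ^ 2 := by
          rw [map_pow, norm_pow, ← pow_mul, ← pow_mul, mul_comm]
      _ = ∏ l ∈ S, (‖σ (m l)‖ ^ b l) ^ 2 := by
          rw [h3, map_prod, norm_prod, ← Finset.prod_pow]
          refine Finset.prod_congr rfl fun l _ => ?_
          rw [map_pow, norm_pow]
      _ = ∏ l ∈ S, (p : ℝ) ^ (a * Φ.e Z * d l) := Finset.prod_congr rfl h5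
      _ = _ := by
          rw [Finset.prod_pow_eq_pow_sum, ← Finset.mul_sum, h2, ← pow_mul]
          congr 1
          ring
  have h7 := (pow_left_inj₀ (by positivity) (by positivity) ha.ne').1 h4
  rw [map_pow, norm_pow, ← pow_mul, mul_comm s 2, pow_mul, h7, W534.card]
  push_cast
  rw [← pow_mul, ← pow_mul]
  congr 1
  ring

/-- The trivial case. -/
lemma one_eq_zero_of_product {κ : Type} [DecidableEq κ] {X : κ → 𝒱.Obj} {S : Finset κ}
    (hZ : IsProductOnce X S Z) {l : κ} (hl : l ∈ S)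
    (h0 : (1 : W.H (X l)) = 0) : (1 : W.H Z) = 0 := by
  induction hZ with
  | base l' =>
    rw [Finset.mem_singleton] at hl
    subst hl
    exact h0
  | @prod S T Y Z hST hY hZ ihY ihZ =>
    rcases Finset.mem_union.1 hl with h | h
    · rw [← map_one (W.map (fst Y Z)), ihY h, map_zero]
    · rw [← map_one (W.map (snd Y Z)), ihZ h, map_zero]

lemma semisimple_of_zero (h : (1 : W.H Z) = 0) (c : ℕ) : SemisimpleTateIn Φ Z c := by
  intro s _ x _
  have : x = 0 := by rw [← one_mul x, h, zero_mul]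
  rw [this]
  exact Submodule.zero_mem _

/-- **All products of varieties with independent slopes.** -/
theorem product_main {κ : Type} [Fintype κ] [DecidableEq κ] {X : κ → 𝒱.Obj} [IsAlgClosed W.K]
    [Fact p.Prime] (hRH : ∀ l, RiemannHyp Φ σ (X l)) (hint : ∀ l, HasIntegralPolys Φ σ (X l))
    (hX : SlopesIndependent Φ σ X Set.univ)
    (hss : ∀ l c, SemisimpleTateIn Φ (X l) c) (hZ : IsProductOnce X Finset.univ Z) :
    (∀ c, SemisimpleTateIn Φ Z c) ∧ (∀ j ≤ Z.dim, PoleFormula Φ σ Z j) := by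
  have h1 : ∀ c, SemisimpleTateIn Φ Z c := by
    by_cases h0 : ∀ l, (1 : W.H (X l)) ≠ 0
    · have key : ∀ (S : Finset κ) (Z : 𝒱.Obj), IsProductOnce X S Z →
          ∀ c, SemisimpleTateIn Φ Z c := by
        intro S Z hZ
        induction hZ with
        | base l => exact hss l
        | @prod S T Y Z hST hY hZ ihY ihZ =>
          intro c
          have hrt := relTrivial_of_independent hRH hint (S' := Set.univ)
            (fun l _ => Set.mem_univ l) hX hST (fun l _ _ => h0 l) hY hZ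
          have hY' := riemannHyp_product (Fact.out : p.Prime).one_lt hRH hY
          have hsp := splits_of_relTrivial (Fact.out : p.Prime).one_lt hY' hrt ihY
          exact (times_of_splits hsp (homEqNum_of_semisimple hY' ihY) c).2.2
            fun i _ _ => ihZ (c - i)
      exact key _ Z hZ
    · push Not at h0
      obtain ⟨l, hl⟩ := h0
      exact semisimple_of_zero (one_eq_zero_of_product hZ (Finset.mem_univ l) hl)
  exact ⟨h1, fun j hj => pole_of_semisimple
    (riemannHyp_product (Fact.out : p.Prime).one_lt hRH hZ) h1 hj⟩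

lemma productOnce_withU {κ : Type} [DecidableEq κ] {X : κ → 𝒱.Obj} {S : Finset κ}
    (hZ : IsProductOnce X S Z) (U : 𝒱.Obj) :
    IsProductOnce (withU X U) (S.map Function.Embedding.some) Z := by
  induction hZ with
  | base l =>
    rw [Finset.map_singleton]
    exact IsProductOnce.base (X := withU X U) (some l)
  | @prod S T Y Z hST _ _ ihY ihZ =>
    rw [Finset.map_union]
    exact IsProductOnce.prod ((Finset.disjoint_map _).2 hST) ihY ihZ

/-- **The products with all varieties whose slopes cannot cancel.** -/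
theorem times_main {κ : Type} [Fintype κ] [DecidableEq κ] {X : κ → 𝒱.Obj} [IsAlgClosed W.K]
    [Fact p.Prime] (hRH : ∀ l, RiemannHyp Φ σ (X l)) (hint : ∀ l, HasIntegralPolys Φ σ (X l))
    (hRHU : RiemannHyp Φ σ U) (hintU : HasIntegralPolys Φ σ U)
    (hss : ∀ c, SemisimpleTateIn Φ Z c) (hZ : IsProductOnce X Finset.univ Z)
    (hU : SlopesIndependent Φ σ (withU X U) (Set.range some)) (c : ℕ) :
    (TateIn Φ (Z.prod U) c ↔
      ∀ i ≤ c, (∃ x, Z.IsCyc i x ∧ ¬ HomEq W x 0) → TateIn Φ U (c - i)) ∧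
    (SemisimpleTateIn Φ (Z.prod U) c ↔
      ∀ i ≤ c, (∃ x, Z.IsCyc i x ∧ ¬ HomEq W x 0) → SemisimpleTateIn Φ U (c - i)) := by
  have hrt : RelTrivial Φ Z U := by
    refine relTrivial_of_independent (V := withU X U) (S := Finset.univ.map
      Function.Embedding.some) (T := {none}) (by rintro (_ | l); exacts [hRHU, hRH l])
      (by rintro (_ | l); exacts [hintU, hint l]) ?_ hU ?_ ?_ (productOnce_withU hZ U) ?_
    · intro l hl
      obtain ⟨l', -, rfl⟩ := Finset.mem_map.1 hl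
      exact ⟨l', rfl⟩
    · rw [Finset.disjoint_singleton_right]
      intro h
      obtain ⟨l', -, h⟩ := Finset.mem_map.1 h
      exact Option.some_ne_none l' h
    · intro l h1 h2
      exfalso
      cases l with
      | none => exact h2 (Finset.mem_singleton_self _)
      | some l => exact h1 (Finset.mem_map.2 ⟨l, Finset.mem_univ _, rfl⟩)
    · exact IsProductOnce.base (X := withU X U) none
  have hZ' := riemannHyp_product (Fact.out : p.Prime).one_lt hRH hZ
  exact times_of_splits (splits_of_relTrivial (Fact.out : p.Prime).one_lt hZ' hrt hss)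
    (homEqNum_of_semisimple hZ' hss) c

end Pool.Agent.K4H33.CP
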