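import Pool.Agent.K4H33.CP.Defs
import Pool.Agent.K4H33.TS.Numeric

/-!
# Numerical criteria
-/

set_option autoImplicit false

namespace Pool.Agent.K4H33.CP

open Pool.Agent.K4H33.TS (coll coll_eq coll_zero coll_le sum_coll k_zero)

lemma core {e : ℕ → ℤ} (he : ∀ m, |e m| ≤ 1) {M : ℤ}
    (heq : 13860 * e 2 + 9240 * e 3 + 6930 * e 4 + 5544 * e 5 + 4620 * e 6 + 3960 * e 7 +
      3465 * e 8 + 3080 * e 9 + 2772 * e 10 + 2520 * e 11 = 27720 * M) :
    (e 4 = 0 ∧ e 5 = 0 ∧ e 7 = 0 ∧ e 8 = 0 ∧ e 9 = 0 ∧ e 10 = 0 ∧ e 11 = 0) ∧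
      3 * e 2 + 2 * e 3 + e 6 = 6 * M := by
  have he' : ∀ m, -1 ≤ e m ∧ e m ≤ 1 := fun m => abs_le.1 (he m)
  have e11 : e 11 = 0 := by
    obtain ⟨t, ht⟩ : ∃ t, 2520 * e 11 = 11 * t := ⟨2520 * M - (1260 * e 2 + 840 * e 3 + 630 * e 4 +
      504 * e 5 + 420 * e 6 + 360 * e 7 + 315 * e 8 + 280 * e 9 + 252 * e 10), by linarith⟩
    have := he' 11
    omega
  rw [e11] at heq
  have e7 : e 7 = 0 := by
    obtain ⟨t, ht⟩ : ∃ t, 3960 * e 7 = 7 * t := ⟨3960 * M - (1980 * e 2 + 1320 * e 3 + 990 * e 4 +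
      792 * e 5 + 660 * e 6 + 495 * e 8 + 440 * e 9 + 396 * e 10), by linarith⟩
    have := he' 7
    omega
  rw [e7] at heq
  have e9 : e 9 = 0 := by
    obtain ⟨t, ht⟩ : ∃ t, 3080 * e 9 = 3 * t := ⟨9240 * M - (4620 * e 2 + 3080 * e 3 + 2310 * e 4 +
      1848 * e 5 + 1540 * e 6 + 1155 * e 8 + 924 * e 10), by linarith⟩
    have := he' 9
    omega
  rw [e9] at heq
  have e510 : e 5 = 0 ∧ e 10 = 0 := by
    obtain ⟨t, ht⟩ : ∃ t, 5544 * e 5 + 2772 * e 10 = 5 * t := ⟨5544 * M - (2772 * e 2 +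
      1848 * e 3 + 1386 * e 4 + 924 * e 6 + 693 * e 8), by linarith⟩
    have := he' 5
    have := he' 10
    omega
  rw [e510.1, e510.2] at heq
  have e8 : e 8 = 0 := by
    obtain ⟨t, ht⟩ : ∃ t, 3465 * e 8 = 2 * t := ⟨13860 * M - (6930 * e 2 +
      4620 * e 3 + 3465 * e 4 + 2310 * e 6), by linarith⟩
    have := he' 8
    omega
  rw [e8] at heq
  have e4 : e 4 = 0 := by
    obtain ⟨t, ht⟩ : ∃ t, 6930 * e 4 = 4 * t := ⟨6930 * M - (3465 * e 2 +
      2310 * e 3 + 1155 * e 6), by linarith⟩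
    have := he' 4
    omega
  rw [e4] at heq
  exact ⟨⟨e4, e510.1, e7, e8, e9, e510.2, e11⟩, by linarith⟩

variable {κ : Type} [Fintype κ] {h t : κ → ℕ} {N : ℕ} {ε : κ → Fin N → ℤ}

/-- The indicator of `t l ≠ 0`. -/
def ind (t : κ → ℕ) (l : κ) : ℕ := if t l = 0 then 0 else 1

omit [Fintype κ] in
lemma ind_ne {l : κ} : ind t l ≠ 0 ↔ t l ≠ 0 := by
  unfold ind
  split_ifs with h <;> simp [h]

omit [Fintype κ] in
lemma ind_le (l : κ) : ind t l ≤ 1 := by
  unfold ind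
  split_ifs <;> simp

omit [Fintype κ] in
lemma eps_zero (hpos : ∀ l, 0 < h l) (hN : 0 < N)
    (hfreq : ∀ l, (∀ g, ε l g = 0) ∨ ∀ a : ℤ, |a| = 1 → {g | ε l g = a}.ncard * t l = h l * N)
    {l : κ} (hl : t l = 0) (g : Fin N) : ε l g = 0 := by
  rcases hfreq l with h1 | h1
  · exact h1 g
  · have h2 := h1 1 (by simp)
    rw [hl, mul_zero] at h2
    exact absurd h2.symm (Nat.mul_pos (hpos l) hN).ne'

omit [Fintype κ] in
lemma eps_le_ind (hpos : ∀ l, 0 < h l) (hN : 0 < N) (hle : ∀ l g, |ε l g| ≤ 1)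
    (hfreq : ∀ l, (∀ g, ε l g = 0) ∨ ∀ a : ℤ, |a| = 1 → {g | ε l g = a}.ncard * t l = h l * N)
    (g : Fin N) (l : κ) : |ε l g| ≤ ind t l := by
  by_cases hl : t l = 0
  · rw [eps_zero hpos hN hfreq hl, abs_zero]
    exact_mod_cast Nat.zero_le _
  · have : ind t l = 1 := by rw [ind, if_neg hl]
    rw [this]
    exact_mod_cast hle l g

omit [Fintype κ] in
/-- The size of the support. -/
lemma support_card {l : κ} (hle : ∀ g, |ε l g| ≤ 1)
    (hfreq : (∀ g, ε l g = 0) ∨ ∀ a : ℤ, |a| = 1 → {g | ε l g = a}.ncard * t l = h l * N)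
    {g₀ : Fin N} (h0 : ε l g₀ ≠ 0) : {g | ε l g ≠ 0}.ncard * t l = 2 * (h l * N) := by
  rcases hfreq with h1 | h1
  · exact absurd (h1 g₀) h0
  have h2 : {g | ε l g ≠ 0} = {g | ε l g = 1} ∪ {g | ε l g = -1} := by
    ext g
    have := abs_le.1 (hle g)
    simp only [Set.mem_ofPred_eq, Set.mem_union]
    omega
  have h3 : Disjoint {g | ε l g = 1} {g | ε l g = -1} := by
    rw [Set.disjoint_left]
    intro g h4 h5
    rw [Set.mem_ofPred_eq] at h4 h5
    omega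
  rw [h2, Set.ncard_union_eq h3, add_mul, h1 1 (by simp), h1 (-1) (by simp)]
  ring

/-- The common part of the proofs for the heights two, three and six. -/
lemma all_zero (hpos : ∀ l, 0 < h l) (hN : 0 < N) (hle : ∀ l g, |ε l g| ≤ 1)
    (hfreq : ∀ l, (∀ g, ε l g = 0) ∨ ∀ a : ℤ, |a| = 1 → {g | ε l g = a}.ncard * t l = h l * N)
    (hdiff : DifferentHeights 1 h t)
    (hA : ∀ g m, m ∈ Finset.Icc 1 11 → m ∉ ({2, 3, 6} : Finset ℕ) →
      coll h (fun l => ε l g) 2 = 0 → coll h (fun l => ε l g) m = 0)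
    (hB : ∀ g, coll h (fun l => ε l g) 2 ≠ 0 ↔ coll h (fun l => ε l g) 3 ≠ 0)
    (hC : ∀ g, coll h (fun l => ε l g) 2 ≠ 0 ↔ coll h (fun l => ε l g) 6 ≠ 0)
    (hex : ∀ l₂ l₃ l₆, h l₂ = 2 → h l₃ = 3 → h l₆ = 6 → t l₂ ≠ 0 → 3 * t l₂ = 2 * t l₃ →
      t l₆ = 3 * t l₂ → False) : ∀ l g, ε l g = 0 := by
  have hinj : ∀ l l', ind t l ≠ 0 → ind t l' ≠ 0 → h l = h l' → l = l' := fun l l' h1 h2 =>
    hdiff.2 l l' (ind_ne.1 h1) (ind_ne.1 h2)
  have hk := fun g => eps_le_ind hpos hN hle hfreq g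
  have hex' : ∀ g m, coll h (fun l => ε l g) m ≠ 0 → ∃ l, t l ≠ 0 ∧ h l = m := by
    intro g m h1
    by_contra hcon
    push Not at hcon
    exact h1 (coll_zero (hk g) fun l hl => hcon l (ind_ne.1 hl))
  have h2z : ∀ g, coll h (fun l => ε l g) 2 = 0 := by
    intro g₀
    by_contra h0
    obtain ⟨l₂, ht₂, hl₂⟩ := hex' g₀ 2 h0
    obtain ⟨l₃, ht₃, hl₃⟩ := hex' g₀ 3 ((hB g₀).1 h0)
    obtain ⟨l₆, ht₆, hl₆⟩ := hex' g₀ 6 ((hC g₀).1 h0)
    have e2 : ∀ g, coll h (fun l => ε l g) 2 = ε l₂ g := fun g => by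
      rw [← hl₂]
      exact coll_eq hinj (hk g) (ind_ne.2 ht₂)
    have e3 : ∀ g, coll h (fun l => ε l g) 3 = ε l₃ g := fun g => by
      rw [← hl₃]
      exact coll_eq hinj (hk g) (ind_ne.2 ht₃)
    have e6 : ∀ g, coll h (fun l => ε l g) 6 = ε l₆ g := fun g => by
      rw [← hl₆]
      exact coll_eq hinj (hk g) (ind_ne.2 ht₆)
    have s23 : {g | ε l₂ g ≠ 0} = {g | ε l₃ g ≠ 0} := by
      ext g
      rw [Set.mem_ofPred_eq, Set.mem_ofPred_eq, ← e2, ← e3]
      exact hB g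
    have s26 : {g | ε l₂ g ≠ 0} = {g | ε l₆ g ≠ 0} := by
      ext g
      rw [Set.mem_ofPred_eq, Set.mem_ofPred_eq, ← e2, ← e6]
      exact hC g
    have n2 : ε l₂ g₀ ≠ 0 := by rw [← e2]; exact h0
    have n3 : ε l₃ g₀ ≠ 0 := by rw [← e3]; exact (hB g₀).1 h0
    have n6 : ε l₆ g₀ ≠ 0 := by rw [← e6]; exact (hC g₀).1 h0
    have c2 := support_card (hle l₂) (hfreq l₂) n2
    have c3 := support_card (hle l₃) (hfreq l₃) n3
    have c6 := support_card (hle l₆) (hfreq l₆) n6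
    rw [← s23] at c3
    rw [← s26] at c6
    rw [hl₂] at c2
    rw [hl₃] at c3
    rw [hl₆] at c6
    have hK : 0 < {g | ε l₂ g ≠ 0}.ncard := (Set.ncard_pos (Set.toFinite _)).2 ⟨g₀, n2⟩
    refine hex l₂ l₃ l₆ hl₂ hl₃ hl₆ ht₂ ?_ ?_
    · apply Nat.eq_of_mul_eq_mul_left hK
      linarith
    · apply Nat.eq_of_mul_eq_mul_left hK
      linarith
  intro l g
  by_cases hl : t l = 0
  · exact eps_zero hpos hN hfreq hl g
  · have h1 : coll h (fun l => ε l g) (h l) = ε l g := coll_eq hinj (hk g) (ind_ne.2 hl)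
    rw [← h1]
    by_cases hm : h l ∈ ({2, 3, 6} : Finset ℕ)
    · simp only [Finset.mem_insert, Finset.mem_singleton] at hm
      rcases hm with h2 | h2 | h2
      · rw [h2]; exact h2z g
      · rw [h2]
        by_contra h3
        exact (hB g).2 h3 (h2z g)
      · rw [h2]
        by_contra h3
        exact (hC g).2 h3 (h2z g)
    · exact hA g (h l) (Finset.mem_Icc.2 (hdiff.1 l hl)) hm (h2z g)

lemma sum_range_twelve (e : ℕ → ℤ) :
    ∑ m ∈ Finset.range 12, (e m : ℚ) / m = e 1 + e 2 / 2 + e 3 / 3 + e 4 / 4 + e 5 / 5 + e 6 / 6 +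
      e 7 / 7 + e 8 / 8 + e 9 / 9 + e 10 / 10 + e 11 / 11 := by
  simp only [Finset.sum_range_succ, Finset.range_zero, Finset.sum_empty]
  push_cast
  ring

/-- **Pairwise different heights.** -/
theorem noZeroSum_different (hpos : ∀ l, 0 < h l) (hdiff : DifferentHeights 1 h t)
    (hex : ∀ l₂ l₃ l₆, h l₂ = 2 → h l₃ = 3 → h l₆ = 6 → t l₂ ≠ 0 → 3 * t l₂ = 2 * t l₃ →
      t l₆ = 3 * t l₂ → False) : NoZeroSum h t := by
  intro N ε hN hle hfreq hsum
  have hinj : ∀ l l', ind t l ≠ 0 → ind t l' ≠ 0 → h l = h l' → l = l' := fun l l' h1 h2 =>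
    hdiff.2 l l' (ind_ne.1 h1) (ind_ne.1 h2)
  have hk := fun g => eps_le_ind hpos hN hle hfreq g
  have hcore : ∀ g, ((coll h (fun l => ε l g) 4 = 0 ∧ coll h (fun l => ε l g) 5 = 0 ∧
      coll h (fun l => ε l g) 7 = 0 ∧ coll h (fun l => ε l g) 8 = 0 ∧
      coll h (fun l => ε l g) 9 = 0 ∧ coll h (fun l => ε l g) 10 = 0 ∧
      coll h (fun l => ε l g) 11 = 0) ∧
      3 * coll h (fun l => ε l g) 2 + 2 * coll h (fun l => ε l g) 3 +
        coll h (fun l => ε l g) 6 = 6 * (-coll h (fun l => ε l g) 1)) ∧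
      ∀ m, -1 ≤ coll h (fun l => ε l g) m ∧ coll h (fun l => ε l g) m ≤ 1 := by
    intro g
    have hle' := coll_le (h := h) (k := fun l => ε l g) ind_le hinj (hk g)
    refine ⟨core hle' ?_, fun m => abs_le.1 (hle' m)⟩
    have h1 := hsum g
    have h2 := sum_coll (h := h) (k := fun l => ε l g) (hk g)
      (fun l hl => (hdiff.1 l (ind_ne.1 hl)).2)
    rw [h1, sum_range_twelve] at h2
    have : (13860 * coll h (fun l => ε l g) 2 + 9240 * coll h (fun l => ε l g) 3 +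
      6930 * coll h (fun l => ε l g) 4 + 5544 * coll h (fun l => ε l g) 5 +
      4620 * coll h (fun l => ε l g) 6 + 3960 * coll h (fun l => ε l g) 7 +
      3465 * coll h (fun l => ε l g) 8 + 3080 * coll h (fun l => ε l g) 9 +
      2772 * coll h (fun l => ε l g) 10 + 2520 * coll h (fun l => ε l g) 11 : ℚ) =
      27720 * (-coll h (fun l => ε l g) 1) := by
      linear_combination -27720 * h2
    exact_mod_cast this
  refine all_zero hpos hN hle hfreq hdiff ?_ ?_ ?_ hex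
  · intro g m hm hm' h2
    obtain ⟨⟨⟨e4, e5, e7, e8, e9, e10, e11⟩, h6⟩, hb⟩ := hcore g
    have b1 := hb 1
    have b3 := hb 3
    have b6 := hb 6
    rw [Finset.mem_Icc] at hm
    obtain ⟨hm1, hm2⟩ := hm
    interval_cases m
    · omega
    · exact h2
    · exact absurd (by simp) hm'
    · exact e4
    · exact e5
    · exact absurd (by simp) hm'
    · exact e7
    · exact e8
    · exact e9
    · exact e10
    · exact e11
  · intro g
    obtain ⟨⟨-, h6⟩, hb⟩ := hcore g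
    have b1 := hb 1
    have b2 := hb 2
    have b3 := hb 3
    have b6 := hb 6
    omega
  · intro g
    obtain ⟨⟨-, h6⟩, hb⟩ := hcore g
    have b1 := hb 1
    have b2 := hb 2
    have b3 := hb 3
    have b6 := hb 6
    omega

/-- **Pairwise different heights greater than one, and integral sums.** -/
theorem noIntegralSum_one (hpos : ∀ l, 0 < h l) (hdiff : DifferentHeights 2 h t)
    (hex : ∀ l₂ l₃ l₆, h l₂ = 2 → h l₃ = 3 → h l₆ = 6 → t l₂ ≠ 0 → 3 * t l₂ = 2 * t l₃ →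
      t l₆ = 3 * t l₂ → False) : NoIntegralSum 1 h t := by
  intro N ε hN hle hfreq hsum
  have hdiff' : DifferentHeights 1 h t :=
    ⟨fun l hl => ⟨by have := (hdiff.1 l hl).1; omega, (hdiff.1 l hl).2⟩, hdiff.2⟩
  have hinj : ∀ l l', ind t l ≠ 0 → ind t l' ≠ 0 → h l = h l' → l = l' := fun l l' h1 h2 =>
    hdiff.2 l l' (ind_ne.1 h1) (ind_ne.1 h2)
  have hk := fun g => eps_le_ind hpos hN hle hfreq g
  have h1z : ∀ g, coll h (fun l => ε l g) 1 = 0 := fun g => coll_zero (hk g) fun l hl h1 => by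
    have := (hdiff.1 l (ind_ne.1 hl)).1
    omega
  have hcore : ∀ g, ∃ M : ℤ, ((coll h (fun l => ε l g) 4 = 0 ∧ coll h (fun l => ε l g) 5 = 0 ∧
      coll h (fun l => ε l g) 7 = 0 ∧ coll h (fun l => ε l g) 8 = 0 ∧
      coll h (fun l => ε l g) 9 = 0 ∧ coll h (fun l => ε l g) 10 = 0 ∧
      coll h (fun l => ε l g) 11 = 0) ∧
      3 * coll h (fun l => ε l g) 2 + 2 * coll h (fun l => ε l g) 3 +
        coll h (fun l => ε l g) 6 = 6 * M) ∧
      ∀ m, -1 ≤ coll h (fun l => ε l g) m ∧ coll h (fun l => ε l g) m ≤ 1 := by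
    intro g
    obtain ⟨M, hM⟩ := hsum g
    have hle' := coll_le (h := h) (k := fun l => ε l g) ind_le hinj (hk g)
    refine ⟨M, core hle' ?_, fun m => abs_le.1 (hle' m)⟩
    have h2 := sum_coll (h := h) (k := fun l => ε l g) (hk g)
      (fun l hl => (hdiff.1 l (ind_ne.1 hl)).2)
    rw [h2, sum_range_twelve, h1z g] at hM
    push_cast at hM
    have : (13860 * coll h (fun l => ε l g) 2 + 9240 * coll h (fun l => ε l g) 3 +
      6930 * coll h (fun l => ε l g) 4 + 5544 * coll h (fun l => ε l g) 5 +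
      4620 * coll h (fun l => ε l g) 6 + 3960 * coll h (fun l => ε l g) 7 +
      3465 * coll h (fun l => ε l g) 8 + 3080 * coll h (fun l => ε l g) 9 +
      2772 * coll h (fun l => ε l g) 10 + 2520 * coll h (fun l => ε l g) 11 : ℚ) =
      27720 * M := by
      linear_combination 27720 * hM
    exact_mod_cast this
  refine all_zero hpos hN hle hfreq hdiff' ?_ ?_ ?_ hex
  · intro g m hm hm' h2
    obtain ⟨M, ⟨⟨e4, e5, e7, e8, e9, e10, e11⟩, h6⟩, hb⟩ := hcore g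
    have b1 := h1z g
    rw [Finset.mem_Icc] at hm
    obtain ⟨hm1, hm2⟩ := hm
    interval_cases m
    · exact b1
    · exact h2
    · exact absurd (by simp) hm'
    · exact e4
    · exact e5
    · exact absurd (by simp) hm'
    · exact e7
    · exact e8
    · exact e9
    · exact e10
    · exact e11
  · intro g
    obtain ⟨M, ⟨-, h6⟩, hb⟩ := hcore g
    have b2 := hb 2
    have b3 := hb 3
    have b6 := hb 6
    omega
  · intro g
    obtain ⟨M, ⟨-, h6⟩, hb⟩ := hcore g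
    have b2 := hb 2
    have b3 := hb 3
    have b6 := hb 6
    omega

lemma core2 {e : ℕ → ℤ} (he : ∀ m, |e m| ≤ 1) {M : ℤ}
    (heq : 2 * (9240 * e 3 + 6930 * e 4 + 5544 * e 5 + 4620 * e 6 + 3960 * e 7 +
      3465 * e 8 + 3080 * e 9 + 2772 * e 10 + 2520 * e 11) = 27720 * M) :
    (e 4 = 0 ∧ e 5 = 0 ∧ e 7 = 0 ∧ e 8 = 0 ∧ e 9 = 0 ∧ e 10 = 0 ∧ e 11 = 0) ∧
      2 * e 3 + e 6 = 3 * M := by
  have he' : ∀ m, -1 ≤ e m ∧ e m ≤ 1 := fun m => abs_le.1 (he m)
  have e11 : e 11 = 0 := by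
    obtain ⟨t, ht⟩ : ∃ t, 2 * (2520 * e 11) = 11 * t := ⟨2520 * M - 2 * (840 * e 3 + 630 * e 4 +
      504 * e 5 + 420 * e 6 + 360 * e 7 + 315 * e 8 + 280 * e 9 + 252 * e 10), by linarith⟩
    have := he' 11
    omega
  rw [e11] at heq
  have e7 : e 7 = 0 := by
    obtain ⟨t, ht⟩ : ∃ t, 2 * (3960 * e 7) = 7 * t := ⟨3960 * M - 2 * (1320 * e 3 + 990 * e 4 +
      792 * e 5 + 660 * e 6 + 495 * e 8 + 440 * e 9 + 396 * e 10), by linarith⟩
    have := he' 7
    omega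
  rw [e7] at heq
  have e9 : e 9 = 0 := by
    obtain ⟨t, ht⟩ : ∃ t, 2 * (3080 * e 9) = 3 * t := ⟨9240 * M - 2 * (3080 * e 3 + 2310 * e 4 +
      1848 * e 5 + 1540 * e 6 + 1155 * e 8 + 924 * e 10), by linarith⟩
    have := he' 9
    omega
  rw [e9] at heq
  have e510 : e 5 = 0 ∧ e 10 = 0 := by
    obtain ⟨t, ht⟩ : ∃ t, 2 * (5544 * e 5 + 2772 * e 10) = 5 * t := ⟨5544 * M - 2 * (
      1848 * e 3 + 1386 * e 4 + 924 * e 6 + 693 * e 8), by linarith⟩
    have := he' 5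
    have := he' 10
    omega
  rw [e510.1, e510.2] at heq
  have e8 : e 8 = 0 := by
    obtain ⟨t, ht⟩ : ∃ t, 3465 * e 8 = 2 * t := ⟨6930 * M - (
      4620 * e 3 + 3465 * e 4 + 2310 * e 6), by linarith⟩
    have := he' 8
    omega
  rw [e8] at heq
  have e4 : e 4 = 0 := by
    obtain ⟨t, ht⟩ : ∃ t, 3465 * e 4 = 2 * t := ⟨3465 * M - (
      2310 * e 3 + 1155 * e 6), by linarith⟩
    have := he' 4
    omega
  rw [e4] at heq
  exact ⟨⟨e4, e510.1, e7, e8, e9, e510.2, e11⟩, by linarith⟩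

/-- **Pairwise different heights greater than two, and half-integral sums.** -/
theorem noIntegralSum_two (hpos : ∀ l, 0 < h l) (hdiff : DifferentHeights 3 h t)
    (hex : ∀ l₃ l₆, h l₃ = 3 → h l₆ = 6 → t l₃ ≠ 0 → t l₆ = 2 * t l₃ → False) :
    NoIntegralSum 2 h t := by
  intro N ε hN hle hfreq hsum
  have hinj : ∀ l l', ind t l ≠ 0 → ind t l' ≠ 0 → h l = h l' → l = l' := fun l l' h1 h2 =>
    hdiff.2 l l' (ind_ne.1 h1) (ind_ne.1 h2)
  have hk := fun g => eps_le_ind hpos hN hle hfreq g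
  have h1z : ∀ g, coll h (fun l => ε l g) 1 = 0 := fun g => coll_zero (hk g) fun l hl h1 => by
    have := (hdiff.1 l (ind_ne.1 hl)).1
    omega
  have h2z : ∀ g, coll h (fun l => ε l g) 2 = 0 := fun g => coll_zero (hk g) fun l hl h1 => by
    have := (hdiff.1 l (ind_ne.1 hl)).1
    omega
  have hcore : ∀ g, ∃ M : ℤ, ((coll h (fun l => ε l g) 4 = 0 ∧ coll h (fun l => ε l g) 5 = 0 ∧
      coll h (fun l => ε l g) 7 = 0 ∧ coll h (fun l => ε l g) 8 = 0 ∧
      coll h (fun l => ε l g) 9 = 0 ∧ coll h (fun l => ε l g) 10 = 0 ∧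
      coll h (fun l => ε l g) 11 = 0) ∧
      2 * coll h (fun l => ε l g) 3 + coll h (fun l => ε l g) 6 = 3 * M) ∧
      ∀ m, -1 ≤ coll h (fun l => ε l g) m ∧ coll h (fun l => ε l g) m ≤ 1 := by
    intro g
    obtain ⟨M, hM⟩ := hsum g
    have hle' := coll_le (h := h) (k := fun l => ε l g) ind_le hinj (hk g)
    refine ⟨M, core2 hle' ?_, fun m => abs_le.1 (hle' m)⟩
    have h2 := sum_coll (h := h) (k := fun l => ε l g) (hk g)
      (fun l hl => (hdiff.1 l (ind_ne.1 hl)).2)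
    rw [h2, sum_range_twelve, h1z g, h2z g] at hM
    push_cast at hM
    have : (2 * (9240 * coll h (fun l => ε l g) 3 +
      6930 * coll h (fun l => ε l g) 4 + 5544 * coll h (fun l => ε l g) 5 +
      4620 * coll h (fun l => ε l g) 6 + 3960 * coll h (fun l => ε l g) 7 +
      3465 * coll h (fun l => ε l g) 8 + 3080 * coll h (fun l => ε l g) 9 +
      2772 * coll h (fun l => ε l g) 10 + 2520 * coll h (fun l => ε l g) 11) : ℚ) =
      27720 * M := by
      linear_combination 27720 * hM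
    exact_mod_cast this
  have hex' : ∀ g m, coll h (fun l => ε l g) m ≠ 0 → ∃ l, t l ≠ 0 ∧ h l = m := by
    intro g m h1
    by_contra hcon
    push Not at hcon
    exact h1 (coll_zero (hk g) fun l hl => hcon l (ind_ne.1 hl))
  have hB : ∀ g, coll h (fun l => ε l g) 3 ≠ 0 ↔ coll h (fun l => ε l g) 6 ≠ 0 := by
    intro g
    obtain ⟨M, ⟨-, h6⟩, hb⟩ := hcore g
    have b3 := hb 3
    have b6 := hb 6
    omega
  have h3z : ∀ g, coll h (fun l => ε l g) 3 = 0 := by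
    intro g₀
    by_contra h0
    obtain ⟨l₃, ht₃, hl₃⟩ := hex' g₀ 3 h0
    obtain ⟨l₆, ht₆, hl₆⟩ := hex' g₀ 6 ((hB g₀).1 h0)
    have e3 : ∀ g, coll h (fun l => ε l g) 3 = ε l₃ g := fun g => by
      rw [← hl₃]
      exact coll_eq hinj (hk g) (ind_ne.2 ht₃)
    have e6 : ∀ g, coll h (fun l => ε l g) 6 = ε l₆ g := fun g => by
      rw [← hl₆]
      exact coll_eq hinj (hk g) (ind_ne.2 ht₆)
    have s36 : {g | ε l₃ g ≠ 0} = {g | ε l₆ g ≠ 0} := by
      ext g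
      rw [Set.mem_ofPred_eq, Set.mem_ofPred_eq, ← e3, ← e6]
      exact hB g
    have n3 : ε l₃ g₀ ≠ 0 := by rw [← e3]; exact h0
    have n6 : ε l₆ g₀ ≠ 0 := by rw [← e6]; exact (hB g₀).1 h0
    have c3 := support_card (hle l₃) (hfreq l₃) n3
    have c6 := support_card (hle l₆) (hfreq l₆) n6
    rw [← s36] at c6
    rw [hl₃] at c3
    rw [hl₆] at c6
    have hK : 0 < {g | ε l₃ g ≠ 0}.ncard := (Set.ncard_pos (Set.toFinite _)).2 ⟨g₀, n3⟩
    refine hex l₃ l₆ hl₃ hl₆ ht₃ ?_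
    apply Nat.eq_of_mul_eq_mul_left hK
    linarith
  intro l g
  by_cases hl : t l = 0
  · exact eps_zero hpos hN hfreq hl g
  · have h1 : coll h (fun l => ε l g) (h l) = ε l g := coll_eq hinj (hk g) (ind_ne.2 hl)
    rw [← h1]
    obtain ⟨M, ⟨⟨e4, e5, e7, e8, e9, e10, e11⟩, h6⟩, hb⟩ := hcore g
    obtain ⟨hm1, hm2⟩ := hdiff.1 l hl
    have h6z : coll h (fun l => ε l g) 6 = 0 := by
      by_contra h3
      exact (hB g).2 h3 (h3z g)
    generalize h l = m at hm1 hm2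
    interval_cases m
    · exact h3z g
    · exact e4
    · exact e5
    · exact h6z
    · exact e7
    · exact e8
    · exact e9
    · exact e10
    · exact e11

/-- **Pairwise coprime heights.** -/
theorem noIntegralSum_coprime {D : ℕ} (h1 : ∀ l, 1 < h l)
    (hc : ∀ l l', l ≠ l' → Nat.Coprime (h l) (h l')) (hcD : ∀ l, Nat.Coprime (h l) D) :
    NoIntegralSum D h t := by
  intro N ε _ hle _ hsum l g
  exact TS.noRelation_coprime (n := fun _ => 1) h1 hc hcD (fun l => ε l g)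
    (fun l => by exact_mod_cast hle l g) (hsum g) l

/-- **Transcendental ranks with superincreasing inverses.** -/
theorem noZeroSum_super (hpos : ∀ l, 0 < h l) [DecidableEq κ]
    (hs : ∀ l, t l ≠ 0 →
      ∑ l' ∈ Finset.univ.filter (fun l' => l' ≠ l ∧ t l ≤ t l'), (1 : ℚ) / t l' < 1 / t l) :
    NoZeroSum h t := by
  intro N ε hN hle hfreq hsum
  by_contra hcon
  push Not at hcon
  -- the index with the least transcendental rank
  let A : Finset κ := Finset.univ.filter fun l => ∃ g, ε l g ≠ 0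
  have hA : A.Nonempty := by
    obtain ⟨l, g, hg⟩ := hcon
    exact ⟨l, Finset.mem_filter.2 ⟨Finset.mem_univ _, g, hg⟩⟩
  obtain ⟨l, hl, hmin⟩ := Finset.exists_min_image A t hA
  have hsupp : ∀ l ∈ A, (∑ g, |(ε l g : ℚ)|) / h l = 2 * N / t l := by
    intro l hl
    obtain ⟨-, g₀, hg₀⟩ := Finset.mem_filter.1 hl
    have h1 := support_card (hle l) (hfreq l) hg₀
    have h2 : ∑ g, |(ε l g : ℚ)| = ({g | ε l g ≠ 0}.ncard : ℚ) := by
      have h3 : ∀ g, |(ε l g : ℚ)| = if ε l g ≠ 0 then 1 else 0 := by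
        intro g
        have h4 := hle l g
        split_ifs with h5
        · have h6 : |ε l g| = 1 := le_antisymm h4 (Int.one_le_abs h5)
          exact_mod_cast h6
        · push Not at h5
          rw [h5, Int.cast_zero, abs_zero]
      rw [Finset.sum_congr rfl fun g _ => h3 g, Finset.sum_boole, Set.ncard_eq_toFinset_card']
      congr 2
      ext g
      simp
    have ht : t l ≠ 0 := by
      intro h0
      exact hg₀ (eps_zero hpos hN hfreq h0 g₀)
    have hh : (h l : ℚ) ≠ 0 := by exact_mod_cast (hpos l).ne'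
    have ht' : (t l : ℚ) ≠ 0 := by exact_mod_cast ht
    rw [h2, div_eq_div_iff hh ht']
    have h3 : (({g | ε l g ≠ 0}.ncard * t l : ℕ) : ℚ) = ((2 * (h l * N) : ℕ) : ℚ) := by rw [h1]
    push_cast at h3
    linarith
  have hzero : ∀ l', l' ∉ A → ∀ g, ε l' g = 0 := by
    intro l' hl' g
    by_contra h0
    exact hl' (Finset.mem_filter.2 ⟨Finset.mem_univ _, g, h0⟩)
  have h1 : ∀ g, |(ε l g : ℚ)| / h l ≤ ∑ l' ∈ A.erase l, |(ε l' g : ℚ)| / h l' := by
    intro g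
    have h2 := hsum g
    have h3 : ∑ l' ∈ A, (ε l' g : ℚ) / h l' = 0 := by
      rw [← h2]
      refine Finset.sum_subset (Finset.subset_univ _) fun l' _ hl' => ?_
      rw [hzero l' hl' g]
      simp
    rw [← Finset.add_sum_erase A _ hl] at h3
    have h4 : (ε l g : ℚ) / h l = -∑ l' ∈ A.erase l, (ε l' g : ℚ) / h l' := by linarith
    have hpos' : ∀ l' : κ, (0 : ℚ) < h l' := fun l' => by exact_mod_cast hpos l'
    calc |(ε l g : ℚ)| / h l = |(ε l g : ℚ) / h l| := by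
          rw [abs_div, abs_of_pos (hpos' l)]
      _ = |∑ l' ∈ A.erase l, (ε l' g : ℚ) / h l'| := by rw [h4, abs_neg]
      _ ≤ ∑ l' ∈ A.erase l, |(ε l' g : ℚ) / h l'| := Finset.abs_sum_le_sum_abs _ _
      _ = _ := Finset.sum_congr rfl fun l' _ => by rw [abs_div, abs_of_pos (hpos' l')]
  have h2 : 2 * (N : ℚ) / t l ≤ ∑ l' ∈ A.erase l, 2 * (N : ℚ) / t l' := by
    calc 2 * (N : ℚ) / t l = ∑ g, |(ε l g : ℚ)| / h l := by
          rw [← hsupp l hl, Finset.sum_div]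
      _ ≤ ∑ g, ∑ l' ∈ A.erase l, |(ε l' g : ℚ)| / h l' := Finset.sum_le_sum fun g _ => h1 g
      _ = ∑ l' ∈ A.erase l, ∑ g, |(ε l' g : ℚ)| / h l' := Finset.sum_comm
      _ = _ := Finset.sum_congr rfl fun l' hl' => by
          rw [← hsupp l' (Finset.mem_of_mem_erase hl'), Finset.sum_div]
  have hNpos : (0 : ℚ) < 2 * N := by
    have : (0 : ℚ) < N := by exact_mod_cast hN
    linarith
  have h3 : (1 : ℚ) / t l ≤ ∑ l' ∈ A.erase l, (1 : ℚ) / t l' := by
    have h4 : ∀ x : ℚ, 2 * (N : ℚ) / x = 2 * N * (1 / x) := fun x => by ring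
    rw [h4, Finset.sum_congr rfl fun l' _ => h4 (t l'), ← Finset.mul_sum] at h2
    exact le_of_mul_le_mul_left h2 hNpos
  have htl : t l ≠ 0 := by
    obtain ⟨-, g₀, hg₀⟩ := Finset.mem_filter.1 hl
    intro h0
    exact hg₀ (eps_zero hpos hN hfreq h0 g₀)
  have h4 : ∑ l' ∈ A.erase l, (1 : ℚ) / t l' ≤
      ∑ l' ∈ Finset.univ.filter (fun l' => l' ≠ l ∧ t l ≤ t l'), (1 : ℚ) / t l' := by
    refine Finset.sum_le_sum_of_subset_of_nonneg ?_ fun l' _ _ => by positivity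
    intro l' hl'
    rw [Finset.mem_erase] at hl'
    exact Finset.mem_filter.2 ⟨Finset.mem_univ _, hl'.1, hmin l' hl'.2⟩
  exact absurd (h3.trans h4) (not_le.2 (hs l htl))

end Pool.Agent.K4H33.CP
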