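import Pool.Agent.K4H33.CP.K3
import Pool.Agent.K4H33.TS.Family
import Pool.Agent.K4H33.CP.Numeric

/-!
# The coupling criterion: final form
-/

set_option autoImplicit false

open CategoryTheory AlgebraicGeometry Polynomial

universe u v

namespace Pool.Agent.K4H33.CP

open Pool.Agent.H914 Pool.Agent.W534 Pool.Agent.H914.VarClass Pool.Agent.H914.VarClass.Obj
  Pool.Agent.H914.WeilCohomology Pool.Agent.R940 Pool.Agent.TH132.A
open Pool.Agent.K4H33.TS hiding IsProductOnce SlopesIndependent NoZeroSum IsEvenDenominator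

variable {k : Type u} [Field k] {𝒱 : VarClass k} {ops : CycleOps 𝒱}
  {W : WeilCohomology.{u, v} ops} {Y Z U : 𝒱.Obj} {p : ℕ}
  {Φ : FrobSystem W p} {σ : W.K →+* ℂ} {κ : Type} [Fintype κ] {X : κ → 𝒱.Obj}

lemma slopeCount_X_sub_one [Fact p.Prime] {e : ℕ} (he : 0 < e) (x : ℝ) :
    slopeCount p e (Polynomial.X - Polynomial.C 1) x = if x = 0 then 1 else 0 := by
  rw [slopeCount]
  split_ifs with hx
  · subst hx
    have : {y : PadicAlgCl p | aeval y (Polynomial.X - Polynomial.C (1 : ℚ)) = 0 ∧
        ‖y‖ = ((p : ℝ) ^ e) ^ (-(0 : ℝ))} = {1} := by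
      ext y
      rw [Set.mem_ofPred_eq, Set.mem_singleton_iff, map_sub, aeval_X, aeval_C, map_one,
        sub_eq_zero, neg_zero, Real.rpow_zero]
      constructor
      · rintro ⟨rfl, -⟩
        rfl
      · rintro rfl
        exact ⟨rfl, norm_one⟩
    rw [this, Set.ncard_singleton]
  · rw [Set.ncard_eq_zero (Set.Finite.subset (Set.finite_singleton (1 : PadicAlgCl p)) (by
      rintro y ⟨hy, -⟩
      rw [map_sub, aeval_X, aeval_C, map_one, sub_eq_zero] at hy
      exact hy))]
    rw [Set.eq_empty_iff_forall_notMem]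
    rintro y ⟨hy, hy'⟩
    rw [map_sub, aeval_X, aeval_C, map_one, sub_eq_zero] at hy
    rw [hy, norm_one] at hy'
    apply hx
    refine (slope_unique (p := p) he (x' := 0) ?_)
    rw [← hy', neg_zero, Real.rpow_zero]

/-- Independence of the slopes with `U` implies independence. -/
theorem independent_of_withU [Fact p.Prime] (hint : HasIntegralPolys Φ σ U)
    (h1 : (1 : W.H U) ≠ 0) (hU : SlopesIndependent Φ σ (withU X U) (Set.range some)) :
    SlopesIndependent Φ σ X Set.univ := by
  intro d f hf hev N s hc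
  have he : EigIn Φ U 1 0 (1 : W.K) :=
    ⟨1, W.one_mem U, h1, by rw [frob_apply, map_one, one_smul]⟩
  have hfac : IsFactor Φ σ U 0 (Polynomial.X - Polynomial.C (1 : ℚ)) := by
    have h2 := he.isFactor (hint := hint)
    rw [minpoly.one] at h2
    rwa [Polynomial.C_1]
  have key := hU (fun l => l.elim 0 d)
    (fun l => l.elim (Polynomial.X - Polynomial.C (1 : ℚ)) f) (by
      intro l
      cases l with
      | none => exact hfac
      | some l => exact hf l) (by
      rw [Fintype.sum_option]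
      simpa using hev) N (fun l g => l.elim 0 (fun l => s l g)) ⟨hc.pos, by
      intro l x
      cases l with
      | none =>
        change {g : Fin N | (0 : ℝ) = x}.ncard * _ = slopeCount p (Φ.e U)
          (Polynomial.X - Polynomial.C (1 : ℚ)) x * N
        rw [slopeCount_X_sub_one (Φ.e_pos U)]
        have h3 : (Polynomial.X - Polynomial.C (1 : ℚ)).natDegree = 1 := natDegree_X_sub_C _
        change {g : Fin N | (0 : ℝ) = x}.ncard *
          (Polynomial.X - Polynomial.C (1 : ℚ)).natDegree = _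
        rw [h3, mul_one]
        split_ifs with hx
        · subst hx
          have : {g : Fin N | (0 : ℝ) = 0} = Set.univ := by
            ext g
            simp
          rw [this, Set.ncard_univ, Nat.card_eq_fintype_card, Fintype.card_fin, one_mul]
        · have : {g : Fin N | (0 : ℝ) = x} = ∅ := by
            ext g
            simp [Ne.symm hx]
          rw [this, Set.ncard_empty, zero_mul]
      | some l => exact hc.marginal l x, by
      intro g
      rw [Fintype.sum_option, Fintype.sum_option]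
      have := hc.sum g
      simpa using this⟩
  intro l _
  exact key (some l) ⟨l, rfl⟩

/-- The independence of the slopes of varieties with slopes near the middle. -/
lemma SlopesNear.extract [Fact p.Prime] {h n : ℕ} (hY : SlopesNear Φ σ Y h n) {d : ℕ} {f : ℚ[X]}
    (hf : IsFactor Φ σ Y d f) {N : ℕ} {s : Fin N → ℝ}
    (hm : ∀ x : ℝ, {g | s g = x}.ncard * f.natDegree = slopeCount p (Φ.e Y) f x * N) :
    ∃ j : ℕ, d = 2 * j ∧ ∀ g, ∃ m : ℤ, |m| ≤ n ∧ s g = (j : ℝ) + (m : ℝ) / h := by
  rcases Nat.even_or_odd d with ⟨j, hj⟩ | hodd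
  swap
  · exact (not_factor_of_bot (hY.odd d hodd) hf).elim
  obtain rfl : d = 2 * j := by omega
  refine ⟨j, rfl, fun g => ?_⟩
  obtain ⟨y, hy, hs⟩ := exists_root_of_marginal hf.1 hm g
  obtain ⟨m, hm, hy'⟩ := hY.slopes j f hf y hy
  rw [hy'] at hs
  exact ⟨m, hm, (slope_unique (Φ.e_pos Y) hs).symm⟩

theorem independent_of_near [Fact p.Prime] {h n : κ → ℕ}
    (hX : ∀ l, SlopesNear Φ σ (X l) (h l) (n l)) (hn : ∀ l, n l < h l)
    (hc : ∀ l l', l ≠ l' → Nat.Coprime (h l) (h l')) : SlopesIndependent Φ σ X Set.univ := by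
  intro d f hf _ N s hco
  have h1 := fun l => (hX l).extract (hf l) (hco.marginal l)
  choose j hj m hm hs using h1
  intro l _
  refine ⟨by rw [hj l]; exact even_two_mul _, fun g => ?_⟩
  have h3 := hco.sum g
  have h4 : ∑ l, s l g = ∑ l, (j l : ℝ) + ∑ l, (m l g : ℝ) / h l := by
    rw [← Finset.sum_add_distrib]
    exact Finset.sum_congr rfl fun l _ => hs l g
  have h5 : ∑ l, (d l : ℝ) = 2 * ∑ l, (j l : ℝ) := by
    rw [Finset.mul_sum]
    refine Finset.sum_congr rfl fun l _ => ?_
    rw [hj l]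
    push_cast
    ring
  rw [h4, h5] at h3
  have h6 : ∑ l, (m l g : ℝ) / h l = 0 := by linarith
  have h7 : ∑ l, (m l g : ℚ) / h l = 0 := by exact_mod_cast h6
  have h8 := TS.noRelation_coprime (D := 1) hn hc (fun l => Nat.coprime_one_right _)
    (fun l => m l g) (fun l => hm l g) ⟨0, by rw [h7]; simp⟩ l
  rw [hs l g, h8, hj l]
  push_cast
  ring

theorem independent_of_near_withU [Fact p.Prime] {h n : κ → ℕ} {D : ℕ}
    (hX : ∀ l, SlopesNear Φ σ (X l) (h l) (n l)) (hn : ∀ l, n l < h l)
    (hc : ∀ l l', l ≠ l' → Nat.Coprime (h l) (h l')) (hcD : ∀ l, Nat.Coprime (h l) D)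
    (hU : IsEvenDenominator Φ σ U D) :
    SlopesIndependent Φ σ (withU X U) (Set.range some) := by
  intro d f hf hev N s hco
  have h1 := fun l => (hX l).extract (hf (some l)) (hco.marginal (some l))
  choose j hj m hm hs using h1
  rw [Fintype.sum_option] at hev
  have hdn : Even (d none) := by
    rw [Nat.even_add] at hev
    refine hev.2 (Finset.even_sum _ fun l _ => ?_)
    rw [hj l]
    exact even_two_mul _
  obtain ⟨j₀, hj₀⟩ := hdn
  have hj₀' : d none = 2 * j₀ := by omega
  have h2 : ∀ g, ∃ m' : ℤ, (D : ℚ) * ∑ l, (m l g : ℚ) / h l = m' := by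
    intro g
    have h3 := hco.sum g
    rw [Fintype.sum_option, Fintype.sum_option] at h3
    have h4 : ∑ l, s (some l) g = ∑ l, (j l : ℝ) + ∑ l, (m l g : ℝ) / h l := by
      rw [← Finset.sum_add_distrib]
      exact Finset.sum_congr rfl fun l _ => hs l g
    have h5 : ∑ l, (d (some l) : ℝ) = 2 * ∑ l, (j l : ℝ) := by
      rw [Finset.mul_sum]
      refine Finset.sum_congr rfl fun l _ => ?_
      rw [hj l]
      push_cast
      ring
    rw [h4, h5, hj₀'] at h3
    push_cast at h3
    have hfn := hf none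
    rw [hj₀'] at hfn
    obtain ⟨y, hy, hs'⟩ := exists_root_of_marginal (hf none).1 (hco.marginal none) g
    obtain ⟨m', hm'⟩ := hU.2 j₀ (f none) hfn y hy
    have hp1 : (1 : ℝ) < p := by exact_mod_cast (Fact.out : p.Prime).one_lt
    have hq : (1 : ℝ) < (p : ℝ) ^ Φ.e U := one_lt_pow₀ hp1 (Φ.e_pos U).ne'
    have h6 : (D : ℝ) * s none g = m' := by
      have hs'' : ‖y‖ = ((p : ℝ) ^ Φ.e U) ^ (-s none g) := hs'
      rw [hs'', ← Real.rpow_natCast, ← Real.rpow_mul (by positivity), ← Real.rpow_intCast] at hm'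
      have h7 := (Real.rpow_right_inj (zero_lt_one.trans hq) hq.ne').1 hm'
      push_cast at h7
      linarith
    refine ⟨D * j₀ - m', ?_⟩
    have h7 : (D : ℝ) * ∑ l, (m l g : ℝ) / h l = ((D * j₀ - m' : ℤ) : ℝ) := by
      have h8 : ∑ l, (m l g : ℝ) / h l = (j₀ : ℝ) - s none g := by linarith
      rw [h8, mul_sub, h6]
      push_cast
      ring
    exact_mod_cast h7
  rintro _ ⟨l, rfl⟩
  refine ⟨by rw [hj l]; exact even_two_mul _, fun g => ?_⟩
  have h8 := TS.noRelation_coprime hn hc hcD (fun l => m l g) (fun l => hm l g) (h2 g) l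
  rw [hs l g, h8, hj l]
  push_cast
  ring

lemma not_homEq {i : ℕ} : (∃ x, Z.IsCyc i x ∧ ¬ HomEq W x 0) ↔
    ∃ x, Z.IsCyc i x ∧ W.cl Z x ≠ 0 := by
  refine exists_congr fun x => and_congr_right fun _ => ?_
  rw [HomEq, map_zero]

variable [DecidableEq κ]

/-- **The coupling criterion for `Z × U`.** -/
theorem reduces [IsAlgClosed W.K] [Fact p.Prime] (hP : ∀ l, IsPure Φ σ (X l))
    (hT : ∀ l c, SemisimpleTateIn Φ (X l) c)
    (hZ : IsProductOnce X Finset.univ Z) (U : 𝒱.Obj) (hPU : IsPure Φ σ U)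
    (hU : SlopesIndependent Φ σ (withU X U) (Set.range some)) : TateReduces Φ Z U := by
  intro c
  by_cases h1 : (1 : W.H U) = 0
  · have h2 : (1 : W.H (Z.prod U)) = 0 := by
      rw [← map_one (W.map (snd Z U)), h1, map_zero]
    exact ⟨⟨fun _ i _ _ => TS.tate_of_zero h1 _, fun _ => TS.tate_of_zero h2 c⟩,
      ⟨fun _ i _ _ => TS.semisimple_of_zero h1 _, fun _ => TS.semisimple_of_zero h2 c⟩⟩
  · have hX := independent_of_withU hPU.integral h1 hU
    have hRH := fun l => (hP l).weight
    have hint := fun l => (hP l).integral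
    have hss := (product_main hRH hint hX hT hZ).1
    have := times_main hRH hint hPU.weight hPU.integral hss hZ hU c
    simp only [not_homEq] at this
    exact this

end Pool.Agent.K4H33.CP
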