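import Pool.Agent.K4H33.CP.Family

/-!
# Varieties of K3 type
-/

set_option autoImplicit false

open CategoryTheory AlgebraicGeometry Polynomial

universe u v

namespace Pool.Agent.K4H33.CP

open Pool.Agent.H914 Pool.Agent.W534 Pool.Agent.H914.VarClass Pool.Agent.H914.VarClass.Obj
  Pool.Agent.H914.WeilCohomology Pool.Agent.R940 Pool.Agent.TH132.A
open Pool.Agent.K4H33.TS hiding IsProductOnce SlopesIndependent NoZeroSum IsEvenDenominator

variable {k : Type u} [Field k] {𝒱 : VarClass k} {ops : CycleOps 𝒱}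
  {W : WeilCohomology.{u, v} ops} {Y Z U : 𝒱.Obj} {p : ℕ}
  {Φ : FrobSystem W p} {σ : W.K →+* ℂ}

lemma not_factor_of_bot {i : ℕ} (hi : W.gr Y i = ⊥) {f : ℚ[X]} (h : IsFactor Φ σ Y i f) :
    False := by
  obtain ⟨h1, h2, h3⟩ := h
  have hsub : Subsingleton (W.gr Y i) := by
    rw [hi]
    infer_instance
  have h4 : frobPoly Φ σ Y 1 i = 1 := by
    rw [frobPoly_eq]
    have h5 : (frobOn Φ Y 1 i).charpoly = 1 := by
      apply Polynomial.eq_one_of_monic_natDegree_zero (LinearMap.charpoly_monic _)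
      rw [LinearMap.charpoly_natDegree]
      exact Module.finrank_zero_of_subsingleton
    rw [h5, Polynomial.map_one]
  rw [h4] at h3
  have h5 := isUnit_of_dvd_one h3
  rw [Polynomial.isUnit_map] at h5
  exact h1.not_isUnit h5

/-- The values of a random variable with the distribution of the slopes are slopes. -/
lemma exists_root_of_marginal [Fact p.Prime] {e N : ℕ} {f : ℚ[X]} (hf : Irreducible f)
    {s : Fin N → ℝ} (hm : ∀ x : ℝ, {g | s g = x}.ncard * f.natDegree = slopeCount p e f x * N)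
    (g : Fin N) : ∃ y : PadicAlgCl p, aeval y f = 0 ∧ ‖y‖ = ((p : ℝ) ^ e) ^ (-s g) := by
  have h1 := hm (s g)
  have h2 : 0 < {g' | s g' = s g}.ncard := (Set.ncard_pos (Set.toFinite _)).2 ⟨g, rfl⟩
  have h3 : slopeCount p e f (s g) ≠ 0 := by
    intro h0
    rw [h0, zero_mul] at h1
    exact (Nat.mul_pos h2 hf.natDegree_pos).ne' h1
  obtain ⟨y, hy⟩ := Set.nonempty_of_ncard_ne_zero h3
  exact ⟨y, hy⟩

lemma slope_unique [hp : Fact p.Prime] {e : ℕ} (he : 0 < e) {x x' : ℝ}
    (h : ((p : ℝ) ^ e) ^ (-x) = ((p : ℝ) ^ e) ^ (-x')) : x = x' := by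
  have hq : (1 : ℝ) < (p : ℝ) ^ e := one_lt_pow₀ (by exact_mod_cast hp.out.one_lt) he.ne'
  have h3 := (Real.rpow_right_inj (zero_lt_one.trans hq) hq.ne').1 h
  linarith

/-- The random variable of a variety of K3 type. -/
lemma IsK3Type.extract [Fact p.Prime] {h t : ℕ} (hY : IsK3Type Φ σ Y h t) {d : ℕ} {f : ℚ[X]}
    (hf : IsFactor Φ σ Y d f) {N : ℕ} {s : Fin N → ℝ}
    (hm : ∀ x : ℝ, {g | s g = x}.ncard * f.natDegree = slopeCount p (Φ.e Y) f x * N) :
    ∃ j : ℕ, d = 2 * j ∧ ∃ ε : Fin N → ℤ,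
      (∀ g, |ε g| ≤ 1 ∧ s g = (j : ℝ) + (ε g : ℝ) / h) ∧
      ((∀ g, ε g = 0) ∨ ∀ a : ℤ, |a| = 1 → {g | ε g = a}.ncard * t = h * N) := by
  rcases Nat.even_or_odd d with ⟨j, hj⟩ | hodd
  swap
  · exact (not_factor_of_bot (hY.odd d hodd) hf).elim
  obtain rfl : d = 2 * j := by omega
  refine ⟨j, rfl, ?_⟩
  rcases hY.slopes j f hf with h1 | ⟨h1, h2⟩
  · refine ⟨fun _ => 0, fun g => ⟨by simp, ?_⟩, Or.inl fun _ => rfl⟩
    obtain ⟨y, hy, hs⟩ := exists_root_of_marginal hf.1 hm g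
    rw [h1 y hy] at hs
    rw [Int.cast_zero, zero_div, add_zero]
    exact (slope_unique (Φ.e_pos Y) hs).symm
  · have h3 : ∀ g, ∃ ε : ℤ, |ε| ≤ 1 ∧ s g = (j : ℝ) + (ε : ℝ) / h := by
      intro g
      obtain ⟨y, hy, hs⟩ := exists_root_of_marginal hf.1 hm g
      obtain ⟨ε, hε, hy'⟩ := h1 y hy
      rw [hy'] at hs
      exact ⟨ε, hε, (slope_unique (Φ.e_pos Y) hs).symm⟩
    choose ε hε using h3
    refine ⟨ε, hε, Or.inr fun a ha => ?_⟩
    have h4 : {g | ε g = a} = {g | s g = (j : ℝ) + (a : ℝ) / h} := by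
      ext g
      rw [Set.mem_ofPred_eq, Set.mem_ofPred_eq, (hε g).2]
      have hh : (h : ℝ) ≠ 0 := by exact_mod_cast hY.pos.ne'
      constructor
      · rintro rfl
        rfl
      · intro h5
        have h6 : (ε g : ℝ) = a := by
          field_simp at h5
          linarith
        exact_mod_cast h6
    have h5 := hm ((j : ℝ) + (a : ℝ) / h)
    rw [← h4] at h5
    have h6 := h2 a ha
    apply Nat.eq_of_mul_eq_mul_left hf.1.natDegree_pos
    calc f.natDegree * ({g | ε g = a}.ncard * t)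
        = ({g | ε g = a}.ncard * f.natDegree) * t := by ring
      _ = (slopeCount p (Φ.e Y) f ((j : ℝ) + (a : ℝ) / h) * t) * N := by rw [h5]; ring
      _ = _ := by rw [h6]; ring

section

variable {κ : Type} [Fintype κ] {X : κ → 𝒱.Obj} {h t : κ → ℕ}

theorem independent_of_noZeroSum [Fact p.Prime] (hX : ∀ l, IsK3Type Φ σ (X l) (h l) (t l))
    (hno : NoZeroSum h t) : SlopesIndependent Φ σ X Set.univ := by
  intro d f hf _ N s hc
  have h1 := fun l => (hX l).extract (hf l) (hc.marginal l)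
  choose j hj ε hε hfreq using h1
  have h2 : ∀ g, ∑ l, (ε l g : ℚ) / h l = 0 := by
    intro g
    have h3 := hc.sum g
    have h4 : ∑ l, s l g = ∑ l, (j l : ℝ) + ∑ l, (ε l g : ℝ) / h l := by
      rw [← Finset.sum_add_distrib]
      exact Finset.sum_congr rfl fun l _ => (hε l g).2
    have h5 : ∑ l, (d l : ℝ) = 2 * ∑ l, (j l : ℝ) := by
      rw [Finset.mul_sum]
      refine Finset.sum_congr rfl fun l _ => ?_
      rw [hj l]
      push_cast
      ring
    rw [h4, h5] at h3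
    have h6 : ∑ l, (ε l g : ℝ) / h l = 0 := by linarith
    exact_mod_cast h6
  have h3 := hno N ε hc.pos (fun l g => (hε l g).1) hfreq h2
  intro l _
  refine ⟨by rw [hj l]; exact even_two_mul _, fun g => ?_⟩
  rw [(hε l g).2, h3 l g, hj l]
  push_cast
  ring

theorem independent_of_noIntegralSum [Fact p.Prime] {D : ℕ}
    (hX : ∀ l, IsK3Type Φ σ (X l) (h l) (t l)) (hno : NoIntegralSum D h t)
    (hU : IsEvenDenominator Φ σ U D) :
    SlopesIndependent Φ σ (withU X U) (Set.range some) := by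
  intro d f hf hev N s hc
  have h1 := fun l => (hX l).extract (hf (some l)) (hc.marginal (some l))
  choose j hj ε hε hfreq using h1
  rw [Fintype.sum_option] at hev
  have hdn : Even (d none) := by
    rw [Nat.even_add] at hev
    refine hev.2 (Finset.even_sum _ fun l _ => ?_)
    rw [hj l]
    exact even_two_mul _
  obtain ⟨j₀, hj₀⟩ := hdn
  have hj₀' : d none = 2 * j₀ := by omega
  have h2 : ∀ g, ∃ m : ℤ, (D : ℚ) * ∑ l, (ε l g : ℚ) / h l = m := by
    intro g
    have h3 := hc.sum g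
    rw [Fintype.sum_option, Fintype.sum_option] at h3
    have h4 : ∑ l, s (some l) g = ∑ l, (j l : ℝ) + ∑ l, (ε l g : ℝ) / h l := by
      rw [← Finset.sum_add_distrib]
      exact Finset.sum_congr rfl fun l _ => (hε l g).2
    have h5 : ∑ l, (d (some l) : ℝ) = 2 * ∑ l, (j l : ℝ) := by
      rw [Finset.mul_sum]
      refine Finset.sum_congr rfl fun l _ => ?_
      rw [hj l]
      push_cast
      ring
    rw [h4, h5, hj₀'] at h3
    push_cast at h3
    have hfn := hf none
    rw [hj₀'] at hfn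
    obtain ⟨y, hy, hs⟩ := exists_root_of_marginal (hf none).1 (hc.marginal none) g
    obtain ⟨m, hm⟩ := hU.2 j₀ (f none) hfn y hy
    have hp1 : (1 : ℝ) < p := by exact_mod_cast (Fact.out : p.Prime).one_lt
    have hq : (1 : ℝ) < (p : ℝ) ^ Φ.e U := one_lt_pow₀ hp1 (Φ.e_pos U).ne'
    have h6 : (D : ℝ) * s none g = m := by
      have hs' : ‖y‖ = ((p : ℝ) ^ Φ.e U) ^ (-s none g) := hs
      rw [hs', ← Real.rpow_natCast, ← Real.rpow_mul (by positivity), ← Real.rpow_intCast] at hm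
      have h7 := (Real.rpow_right_inj (zero_lt_one.trans hq) hq.ne').1 hm
      push_cast at h7
      linarith
    refine ⟨D * j₀ - m, ?_⟩
    have h7 : (D : ℝ) * ∑ l, (ε l g : ℝ) / h l = ((D * j₀ - m : ℤ) : ℝ) := by
      have h8 : ∑ l, (ε l g : ℝ) / h l = (j₀ : ℝ) - s none g := by linarith
      rw [h8, mul_sub, h6]
      push_cast
      ring
    exact_mod_cast h7
  have h3 := hno N ε hc.pos (fun l g => (hε l g).1) hfreq h2
  rintro _ ⟨l, rfl⟩
  refine ⟨by rw [hj l]; exact even_two_mul _, fun g => ?_⟩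
  rw [(hε l g).2, h3 l g, hj l]
  push_cast
  ring

end

end Pool.Agent.K4H33.CP
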