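import Pool.Agent.K4H33.CP.Defs
import Pool.Agent.K4H33.TS.Count
import Pool.Agent.K4H33.TS.ProdSlope

/-!
# Splitting of the Tate classes from trivial relations
-/

set_option autoImplicit false

open CategoryTheory AlgebraicGeometry
open scoped TensorProduct

universe u v

namespace Pool.Agent.K4H33.CP

open Pool.Agent.H914 Pool.Agent.W534 Pool.Agent.H914.VarClass Pool.Agent.H914.VarClass.Obj
  Pool.Agent.H914.WeilCohomology Pool.Agent.R940 Pool.Agent.TH121.KT Pool.Agent.W458.MF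
  Pool.Agent.H281R3.HT Pool.Agent.W552 Pool.Agent.W458.RK Pool.Agent.Y138.TU
  Pool.Agent.TH132.A
open Pool.Agent.K4H33.TS hiding IsProductOnce SlopesIndependent NoZeroSum IsEvenDenominator

variable {k : Type u} [Field k] {𝒱 : VarClass k} {ops : CycleOps 𝒱}
  {W : WeilCohomology.{u, v} ops} {X Y Z U : 𝒱.Obj} {p : ℕ}
  {Φ : FrobSystem W p} {σ : W.K →+* ℂ}

/-- The relations between the eigenvalues of `Z` and of `U` are trivial. -/
def RelTrivial (Φ : FrobSystem W p) (Z U : 𝒱.Obj) : Prop :=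
  ∀ (i j : ℕ) (lam mu : W.K) (a b : ℕ) (c : ℤ), EigIn Φ Z 1 i lam → EigIn Φ U 1 j mu →
    0 < a → 0 < b → a * Φ.e Z = b * Φ.e U →
    lam ^ a * mu ^ b = (p : W.K) ^ (((a * Φ.e Z : ℕ) : ℤ) * c) →
    Even i ∧ ∃ n : ℕ, 0 < n ∧ lam ^ (2 * n) = (p : W.K) ^ (Φ.e Z * i * n)

/-- **The Tate classes split if the relations are trivial.** -/
theorem splits_of_relTrivial [IsAlgClosed W.K] (hp1 : 1 < p) (hRHZ : RiemannHyp Φ σ Z)
    (hrt : RelTrivial Φ Z U) (hss : ∀ c, SemisimpleTateIn Φ Z c) : Splits Φ Z U := by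
  intro b b' hb hb' hbb c a x hx
  have hQ : (card Φ Z b : W.K) ≠ 0 := card_ne Φ b
  refine (tensor_killed (F := frob Φ Z b) (G := frob Φ U b') (card Φ Z b : W.K) hQ c
    (fun i => cycSub W Z i) (fun i y hy => cyc_killed Φ hy) ?_ a x).1 hx
  intro μ ν N hN hν hrel
  by_cases hμ : Module.End.HasEigenvalue (frob Φ Z b) μ
  swap
  · have h1 : Module.End.maxGenEigenspace (frob Φ Z b) μ = ⊥ := by
      by_contra hne
      apply hμ
      have h2 : (frob Φ Z b).HasUnifEigenvalue μ ⊤ := hne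
      exact h2.lt one_pos
    rw [h1]
    exact bot_le
  rw [frob_pow_eq'] at hμ hν
  obtain ⟨lam, hlam, rfl⟩ := exists_eigenvalue_of_pow hμ
  obtain ⟨mu, hmu, rfl⟩ := exists_eigenvalue_of_pow hν
  have hlam' : (frob Φ Z 1).HasEigenvalue lam := by rwa [frob_pow_eq', pow_one]
  have hmu' : (frob Φ U 1).HasEigenvalue mu := by rwa [frob_pow_eq', pow_one]
  obtain ⟨i, hi⟩ := exists_deg hlam'
  obtain ⟨j, hj⟩ := exists_deg hmu'
  have hrel' : lam ^ (b * N) * mu ^ (b' * N) =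
      (p : W.K) ^ ((((b * N) * Φ.e Z : ℕ) : ℤ) * c) := by
    rw [pow_mul, pow_mul, ← mul_pow, hrel, ← zpow_natCast, ← zpow_mul, W534.card, Nat.cast_pow,
      ← zpow_natCast, ← zpow_mul]
    congr 1
    push_cast
    ring
  obtain ⟨⟨m, hm⟩, n, hn, hlamn⟩ := hrt i j lam mu (b * N) (b' * N) c hi hj
    (Nat.mul_pos hb hN) (Nat.mul_pos hb' hN) (by
      calc b * N * Φ.e Z = (Φ.e Z * b) * N := by ring
        _ = (Φ.e U * b') * N := by rw [hbb]
        _ = _ := by ring) hrel'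
  refine le_trans ?_ (le_iSup (fun i => cycSub W Z i) m)
  intro y hy
  have h1 := gen_pow_of_gen hy (2 * n)
  have h2 : (lam ^ b) ^ (2 * n) = (card Φ Z (b * (2 * n)) : W.K) ^ m := by
    rw [← pow_mul, mul_comm b (2 * n), pow_mul, hlamn, W534.card, Nat.cast_pow, ← pow_mul,
      ← pow_mul]
    congr 1
    rw [hm]
    ring
  rw [← frob_mul_eq, h2] at h1
  exact gen_le_cyc hp1 hRHZ (hss m) (Nat.mul_pos hb (Nat.mul_pos two_pos hn)) h1

/-- The eigenvalues of products of families. -/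
lemma eig_product [IsAlgClosed W.K] {κ : Type} [DecidableEq κ] {X : κ → 𝒱.Obj} {S : Finset κ}
    (hZ : IsProductOnce X S Z) : ∀ (i : ℕ) (lam : W.K), EigIn Φ Z 1 i lam →
    ∃ (d : κ → ℕ) (mu : κ → W.K) (a : ℕ) (b : κ → ℕ), 0 < a ∧
      (∀ l ∈ S, EigIn Φ (X l) 1 (d l) (mu l) ∧ b l * Φ.e (X l) = a * Φ.e Z) ∧
      ∑ l ∈ S, d l = i ∧ lam ^ a = ∏ l ∈ S, mu l ^ b l := by
  induction hZ with
  | base l =>
    intro i lam h
    refine ⟨fun _ => i, fun _ => lam, 1, fun _ => 1, one_pos, ?_, by simp, by simp⟩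
    intro l' hl'
    rw [Finset.mem_singleton] at hl'
    rw [hl']
    exact ⟨h, rfl⟩
  | @prod S T Y Z hST _ _ ihY ihZ =>
    intro i lam h
    obtain ⟨A, B, C, hA, hB, hC, hAB, hAC, hcomm⟩ := exists_comm Φ Y Z
    obtain ⟨i₁, i₂, μ₁, μ₂, hi, h1, h2, h12⟩ := eig_prod (A := A) (B := B) (C := C)
      (fun x => by simpa using hcomm 1 x) (h.pow A)
    obtain ⟨l₁, h3, rfl⟩ := h1.exists_root
    obtain ⟨l₂, h4, rfl⟩ := h2.exists_root
    obtain ⟨d₁, mu₁, a₁, b₁, ha₁, h5, h6, h7⟩ := ihY i₁ l₁ h3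
    obtain ⟨d₂, mu₂, a₂, b₂, ha₂, h8, h9, h10⟩ := ihZ i₂ l₂ h4
    have hT : ∀ l ∈ T, l ∉ S := fun l hl hl' => Finset.disjoint_left.1 hST hl' hl
    refine ⟨fun l => if l ∈ S then d₁ l else d₂ l, fun l => if l ∈ S then mu₁ l else mu₂ l,
      A * a₁ * a₂, fun l => if l ∈ S then b₁ l * (B * a₂) else b₂ l * (C * a₁),
      Nat.mul_pos (Nat.mul_pos hA ha₁) ha₂, ?_, ?_, ?_⟩
    · intro l hl
      by_cases h : l ∈ S
      · simp only [if_pos h]
        refine ⟨(h5 l h).1, ?_⟩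
        calc b₁ l * (B * a₂) * Φ.e (X l) = (b₁ l * Φ.e (X l)) * (B * a₂) := by ring
          _ = a₁ * Φ.e Y * (B * a₂) := by rw [(h5 l h).2]
          _ = (B * Φ.e Y) * (a₁ * a₂) := by ring
          _ = _ := by rw [← hAB]; ring
      · simp only [if_neg h]
        have h' := (Finset.mem_union.1 hl).resolve_left h
        refine ⟨(h8 l h').1, ?_⟩
        calc b₂ l * (C * a₁) * Φ.e (X l) = (b₂ l * Φ.e (X l)) * (C * a₁) := by ring
          _ = a₂ * Φ.e Z * (C * a₁) := by rw [(h8 l h').2]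
          _ = (C * Φ.e Z) * (a₁ * a₂) := by ring
          _ = _ := by rw [← hAC]; ring
    · rw [Finset.sum_union hST, Finset.sum_congr rfl fun l hl => if_pos hl, h6,
        Finset.sum_congr rfl fun l hl => if_neg (hT l hl), h9, hi]
    · rw [Finset.prod_union hST]
      have e1 : ∀ l ∈ S, (if l ∈ S then mu₁ l else mu₂ l) ^
          (if l ∈ S then b₁ l * (B * a₂) else b₂ l * (C * a₁)) = (mu₁ l ^ b₁ l) ^ (B * a₂) := by
        intro l hl
        rw [if_pos hl, if_pos hl, pow_mul]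
      have e2 : ∀ l ∈ T, (if l ∈ S then mu₁ l else mu₂ l) ^
          (if l ∈ S then b₁ l * (B * a₂) else b₂ l * (C * a₁)) = (mu₂ l ^ b₂ l) ^ (C * a₁) := by
        intro l hl
        rw [if_neg (hT l hl), if_neg (hT l hl), pow_mul]
      rw [Finset.prod_congr rfl e1, Finset.prod_congr rfl e2, Finset.prod_pow, Finset.prod_pow,
        ← h7, ← h10, mul_assoc, pow_mul, ← h12, mul_pow, ← pow_mul, ← pow_mul, ← pow_mul,
        ← pow_mul]
      congr 2 <;> ring

end Pool.Agent.K4H33.CP
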